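import Pool.Agent.H439.LS.Ineq

set_option autoImplicit false

namespace Pool.Agent.H439.SP

open Finset Complex ComplexConjugate Pool.Agent.H439.LS

/-- the Euclidean norm -/
noncomputable def l2 {J : ℕ} (v : Fin J → ℂ) : ℝ := ‖(WithLp.toLp 2 v : EuclideanSpace ℂ (Fin J))‖

lemma l2_nonneg {J : ℕ} (v : Fin J → ℂ) : 0 ≤ l2 v := norm_nonneg _

lemma l2_eq {J : ℕ} (v : Fin J → ℂ) : l2 v = Real.sqrt (∑ j, ‖v j‖ ^ 2) := by
  unfold l2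
  rw [EuclideanSpace.norm_eq]

lemma l2_sq {J : ℕ} (v : Fin J → ℂ) : l2 v ^ 2 = ∑ j, ‖v j‖ ^ 2 := by
  rw [l2_eq, Real.sq_sqrt (sum_nonneg fun _ _ => by positivity)]

lemma l2_le_iff {J : ℕ} (v : Fin J → ℂ) {B : ℝ} (hB : 0 ≤ B) : l2 v ≤ B ↔ ∑ j, ‖v j‖ ^ 2 ≤ B ^ 2 := by
  rw [← l2_sq]
  exact ⟨fun h => pow_le_pow_left₀ (l2_nonneg v) h 2, fun h => le_of_sq_le_sq hB h⟩
where
  le_of_sq_le_sq {a b : ℝ} (hb : 0 ≤ b) (h : a ^ 2 ≤ b ^ 2) : a ≤ b := by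
    exact abs_le_of_sq_le_sq' h hb |>.2

lemma l2_add_le {J : ℕ} (v w : Fin J → ℂ) : l2 (fun j => v j + w j) ≤ l2 v + l2 w := by
  unfold l2
  exact norm_add_le (WithLp.toLp 2 v : EuclideanSpace ℂ (Fin J)) (WithLp.toLp 2 w)

lemma l2_zero {J : ℕ} : l2 (fun _ : Fin J => (0 : ℂ)) = 0 := by
  rw [l2_eq]; simp

lemma l2_sum_le {J : ℕ} {ι : Type*} (s : Finset ι) (v : ι → Fin J → ℂ) :
    l2 (fun j => ∑ i ∈ s, v i j) ≤ ∑ i ∈ s, l2 (v i) := by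
  classical
  induction s using Finset.induction_on with
  | empty => simp [l2_zero]
  | insert a s ha ih =>
    simp only [sum_insert ha]
    exact (l2_add_le _ _).trans (add_le_add le_rfl ih)

lemma l2_mono {J : ℕ} (v w : Fin J → ℂ) (h : ∀ j, ‖v j‖ ≤ ‖w j‖) : l2 v ≤ l2 w := by
  rw [l2_le_iff _ (l2_nonneg w), l2_sq]
  exact sum_le_sum fun j _ => pow_le_pow_left₀ (norm_nonneg _) (h j) 2

lemma l2_mul_le {J : ℕ} (d : Fin J → ℝ) (v : Fin J → ℂ) {D : ℝ} (hd : ∀ j, |d j| ≤ D) (hD : 0 ≤ D) :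
    l2 (fun j => (d j : ℂ) * v j) ≤ D * l2 v := by
  rw [l2_le_iff _ (mul_nonneg hD (l2_nonneg v)), mul_pow, l2_sq, mul_sum]
  apply sum_le_sum
  intro j _
  rw [norm_mul, mul_pow, norm_real, Real.norm_eq_abs]
  exact mul_le_mul_of_nonneg_right (pow_le_pow_left₀ (abs_nonneg _) (hd j) 2) (by positivity)

/-- summation by parts -/
lemma abel (f : ℕ → ℂ) (g : ℕ → ℝ) {a b : ℕ} (hab : a ≤ b) :
    ∑ n ∈ Ioc a b, (g n : ℂ) * f n = (g b : ℂ) * ∑ n ∈ Ioc a b, f n +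
      ∑ u ∈ Ico a b, ((g u - g (u + 1) : ℝ) : ℂ) * ∑ n ∈ Ioc a u, f n := by
  induction b, hab using Nat.le_induction with
  | base => simp
  | succ b hb ih =>
    rw [Finset.sum_Ioc_succ_top (by omega), ih, Finset.sum_Ioc_succ_top (by omega : a ≤ b),
      Finset.sum_Ico_succ_top (by omega)]
    push_cast
    ring

/-- **Summation by parts in the Euclidean norm.** -/
lemma l2_abel {J : ℕ} (f : Fin J → ℕ → ℂ) (g : Fin J → ℕ → ℝ) {a b : ℕ} (hab : a ≤ b) {B : ℝ}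
    (hB : ∀ u, a ≤ u → u ≤ b → l2 (fun j => ∑ n ∈ Ioc a u, f j n) ≤ B) (w : ℕ → ℝ) {W : ℝ}
    (hW : ∀ j, |g j b| ≤ W) (hW0 : 0 ≤ W)
    (hw : ∀ j, ∀ u ∈ Ico a b, |g j u - g j (u + 1)| ≤ w u) (hw0 : ∀ u ∈ Ico a b, 0 ≤ w u) :
    l2 (fun j => ∑ n ∈ Ioc a b, (g j n : ℂ) * f j n) ≤ (W + ∑ u ∈ Ico a b, w u) * B := by
  have e : (fun j => ∑ n ∈ Ioc a b, (g j n : ℂ) * f j n) = fun j =>
      (g j b : ℂ) * ∑ n ∈ Ioc a b, f j n +
      ∑ u ∈ Ico a b, ((g j u - g j (u + 1) : ℝ) : ℂ) * ∑ n ∈ Ioc a u, f j n := by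
    funext j
    exact abel (f j) (g j) hab
  rw [e]
  refine (l2_add_le _ _).trans ?_
  rw [add_mul]
  apply add_le_add
  · refine (l2_mul_le (fun j => g j b) _ hW hW0).trans ?_
    exact mul_le_mul_of_nonneg_left (hB b hab le_rfl) hW0
  · refine (l2_sum_le (Ico a b) (fun u j => ((g j u - g j (u + 1) : ℝ) : ℂ) * ∑ n ∈ Ioc a u, f j n)).trans ?_
    rw [sum_mul]
    apply sum_le_sum
    intro u hu
    refine (l2_mul_le (fun j => g j u - g j (u + 1)) _ (fun j => hw j u hu) (hw0 u hu)).trans ?_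
    rw [mem_Ico] at hu
    exact mul_le_mul_of_nonneg_left (hB u hu.1 hu.2.le) (hw0 u (mem_Ico.2 hu))

/-- the differences of the weights `u^{-s}` -/
lemma rpow_diff {s : ℝ} (hs : 0 ≤ s) {u : ℕ} (hu : 0 < u) :
    0 ≤ (u : ℝ) ^ (-s) - ((u + 1 : ℕ) : ℝ) ^ (-s) ∧
    (u : ℝ) ^ (-s) - ((u + 1 : ℕ) : ℝ) ^ (-s) ≤ s * (u : ℝ) ^ (-s) / u := by
  have hu0 : (0 : ℝ) < u := by exact_mod_cast hu
  have h1 : ((u + 1 : ℕ) : ℝ) ^ (-s) ≤ (u : ℝ) ^ (-s) :=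
    Real.rpow_le_rpow_of_nonpos hu0 (by push_cast; linarith) (by linarith)
  refine ⟨by linarith, ?_⟩
  have e : ((u + 1 : ℕ) : ℝ) ^ (-s) = (u : ℝ) ^ (-s) * (1 + 1 / (u : ℝ)) ^ (-s) := by
    rw [← Real.mul_rpow hu0.le (by positivity)]
    congr 1
    push_cast
    field_simp
  rw [e]
  have h2 : 1 - s / u ≤ (1 + 1 / (u : ℝ)) ^ (-s) := by
    have hpos : (0 : ℝ) < 1 + 1 / (u : ℝ) := by positivity
    rw [Real.rpow_def_of_pos hpos]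
    have h3 := Real.add_one_le_exp (Real.log (1 + 1 / (u : ℝ)) * -s)
    have h4 : Real.log (1 + 1 / (u : ℝ)) ≤ 1 / u := by
      have := Real.log_le_sub_one_of_pos hpos
      linarith
    have h5 : Real.log (1 + 1 / (u : ℝ)) * s ≤ 1 / u * s := mul_le_mul_of_nonneg_right h4 hs
    have h6 : 1 / (u : ℝ) * s = s / u := by ring
    linarith
  have h7 : 0 ≤ (u : ℝ) ^ (-s) := Real.rpow_nonneg hu0.le _
  have h8 := mul_le_mul_of_nonneg_left h2 h7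
  have h9 : (u : ℝ) ^ (-s) * (1 - s / u) = (u : ℝ) ^ (-s) - s * (u : ℝ) ^ (-s) / u := by ring
  linarith

end Pool.Agent.H439.SP
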