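import Pool.Agent.H439.SP.Short
import Pool.Graph.R_seed8.Helper923.HMertens

set_option autoImplicit false

namespace Pool.Agent.H439.SP

open Finset Complex NumberField IsDedekindDomain Polynomial Pool.Agent.TH339.MP Pool.Agent.H439.LS

/-- **The sum of the reciprocals of the primes.** -/
lemma sum_inv_le : ∃ C : ℝ, 0 ≤ C ∧ ∀ y : ℝ, 3 ≤ y →
    ∑ p ∈ (range (⌊y⌋₊ + 1)).filter Nat.Prime, 1 / (p : ℝ) ≤ Real.log (Real.log y) + C := by
  obtain ⟨C, hC0, hC⟩ := Pool.Agent.Helper923.HMertens.mertens_ratio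
  have hl2 : 0 < Real.log 2 := Real.log_pos (by norm_num)
  refine ⟨1 / 2 + |Real.log (Real.log 2)| + C / Real.log 2, by positivity, fun y hy => ?_⟩
  have hb : 3 ≤ ⌊y⌋₊ := Nat.le_floor (by exact_mod_cast hy)
  have h1 := hC 2 ⌊y⌋₊ le_rfl (by omega)
  have e : (range (⌊y⌋₊ + 1)).filter Nat.Prime = {2} ∪ (Ioc 2 ⌊y⌋₊).filter Nat.Prime := by
    ext p
    simp only [mem_filter, mem_range, mem_union, mem_singleton, mem_Ioc]
    constructor
    · rintro ⟨h2, h3⟩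
      have := h3.two_le
      by_cases h4 : p = 2
      · exact Or.inl h4
      · exact Or.inr ⟨by omega, h3⟩
    · rintro (h2 | ⟨h2, h3⟩)
      · subst h2
        exact ⟨by omega, Nat.prime_two⟩
      · exact ⟨by omega, h3⟩
  rw [e, sum_union, sum_singleton]
  · have h2 := (abs_le.1 h1).2
    have hfl : (⌊y⌋₊ : ℝ) ≤ y := Nat.floor_le (by linarith)
    have hlb : 0 < Real.log (⌊y⌋₊ : ℝ) := Real.log_pos (by exact_mod_cast (by omega : 1 < ⌊y⌋₊))
    have hfl0 : (0 : ℝ) < (⌊y⌋₊ : ℝ) := by exact_mod_cast (by omega : 0 < ⌊y⌋₊)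
    have h3 : Real.log (⌊y⌋₊ : ℝ) ≤ Real.log y := Real.log_le_log hfl0 hfl
    have h4 : Real.log (Real.log (⌊y⌋₊ : ℝ)) ≤ Real.log (Real.log y) := Real.log_le_log hlb h3
    have h5 : Real.log (Real.log (⌊y⌋₊ : ℝ) / Real.log (2 : ℕ)) =
        Real.log (Real.log (⌊y⌋₊ : ℝ)) - Real.log (Real.log 2) := by
      push_cast
      rw [Real.log_div hlb.ne' hl2.ne']
    rw [h5] at h2
    have h6 := neg_abs_le (Real.log (Real.log 2))
    push_cast at h2 ⊢
    linarith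
  · rw [disjoint_left]
    intro p hp hp'
    rw [mem_singleton] at hp
    rw [mem_filter, mem_Ioc] at hp'
    omega

section
variable {K : Type} [Field K] [NumberField K] {N : ℕ}

open Classical in
/-- the parameters at the large primes -/
noncomputable def hi (β : HeightOneSpectrum (𝓞 K) → Fin N → ℂ) (y : ℝ)
    (v : HeightOneSpectrum (𝓞 K)) (j : Fin N) : ℂ := if (nm v : ℝ) ≤ y then 0 else β v j

open Classical in
/-- the parameters at the small primes -/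
noncomputable def lo (β : HeightOneSpectrum (𝓞 K) → Fin N → ℂ) (y : ℝ)
    (v : HeightOneSpectrum (𝓞 K)) (j : Fin N) : ℂ := if (nm v : ℝ) ≤ y then β v j else 0

lemma norm_hi {β : HeightOneSpectrum (𝓞 K) → Fin N → ℂ} (hβ : ∀ v j, ‖β v j‖ ≤ 1) (y : ℝ)
    (v : HeightOneSpectrum (𝓞 K)) (j : Fin N) : ‖hi β y v j‖ ≤ 1 := by
  unfold hi
  split_ifs
  · simp
  · exact hβ v j

lemma norm_lo {β : HeightOneSpectrum (𝓞 K) → Fin N → ℂ} (hβ : ∀ v j, ‖β v j‖ ≤ 1) (y : ℝ)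
    (v : HeightOneSpectrum (𝓞 K)) (j : Fin N) : ‖lo β y v j‖ ≤ 1 := by
  unfold lo
  split_ifs
  · exact hβ v j
  · simp

/-- the coefficients of the large part at small prime powers -/
lemma bb_hi (β : HeightOneSpectrum (𝓞 K) → Fin N → ℂ) (y : ℝ) {q : ℕ} (χ : DirichletCharacter ℂ q)
    (x : PP) (hx : ((x.1 : ℕ) : ℝ) ^ (x.2 + 1) ≤ y) : bb (tw (hi β y) χ) x = 0 := by
  unfold bb
  apply sum_eq_zero
  intro v hv
  rw [mem_Sp] at hv
  split_ifs with h
  · have hle : dg v ≤ x.2 + 1 := Nat.le_of_dvd (Nat.succ_pos _) h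
    have hnm : (nm v : ℝ) ≤ y := by
      refine le_trans ?_ hx
      rw [nm_eq, hv]
      push_cast
      exact pow_le_pow_right₀ (by exact_mod_cast x.1.2.one_le) hle
    have h1 : ∀ j : Fin N, tw (hi β y) χ v j ^ ((x.2 + 1) / dg v) = 0 := by
      intro j
      unfold tw hi
      rw [if_pos hnm, zero_mul]
      exact zero_pow (Nat.div_pos hle (dg_pos v)).ne'
    rw [sum_congr rfl fun j _ => h1 j, sum_const_zero, zero_mul]
  · rfl

lemma ap_hi (β : HeightOneSpectrum (𝓞 K) → Fin N → ℂ) (y : ℝ) {p : ℕ} (hp : p.Prime)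
    (hpy : (p : ℝ) ≤ y) : ap (hi β y) p = 0 := by
  unfold LS.ap bb
  rw [dif_pos hp]
  apply sum_eq_zero
  intro v hv
  rw [mem_Sp] at hv
  simp only [zero_add, Nat.dvd_one]
  split_ifs with h
  · have hnm : (nm v : ℝ) ≤ y := by
      rw [nm_eq, hv, h, pow_one]
      exact hpy
    have h1 : ∀ j : Fin N, hi β y v j ^ (1 / dg v) = 0 := by
      intro j
      unfold hi
      rw [if_pos hnm, h]
      norm_num
    rw [sum_congr rfl fun j _ => h1 j, sum_const_zero, zero_mul]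
  · rfl

lemma ap_lo (β : HeightOneSpectrum (𝓞 K) → Fin N → ℂ) (y : ℝ) {p : ℕ} (hp : p.Prime)
    (hpy : y < (p : ℝ)) : ap (lo β y) p = 0 := by
  unfold LS.ap bb
  rw [dif_pos hp]
  apply sum_eq_zero
  intro v hv
  rw [mem_Sp] at hv
  simp only [zero_add, Nat.dvd_one]
  split_ifs with h
  · have hnm : ¬ (nm v : ℝ) ≤ y := by
      rw [nm_eq, hv, h, pow_one, not_le]
      exact hpy
    have h1 : ∀ j : Fin N, lo β y v j ^ (1 / dg v) = 0 := by
      intro j
      unfold lo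
      rw [if_neg hnm, h]
      norm_num
    rw [sum_congr rfl fun j _ => h1 j, sum_const_zero, zero_mul]
  · rfl

/-- the constant of the tail -/
noncomputable def c₁ : ℝ := 5 / 4 * ∑' p : Nat.Primes, ((p : ℕ) : ℝ) ^ (-(3 / 2 : ℝ))

lemma c₁_nonneg : 0 ≤ c₁ := mul_nonneg (by norm_num) (tsum_nonneg fun p => by positivity)

/-- **The large part of the logarithm.** -/
lemma FF_PS_hi {β : HeightOneSpectrum (𝓞 K) → Fin N → ℂ} (hβ : ∀ v j, ‖β v j‖ ≤ 1) {q : ℕ}
    (χ : DirichletCharacter ℂ q) {y : ℝ} (hy : 1 ≤ y) {s : ℂ} (hs : 1 < s.re) :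
    ‖FF (bb (tw (hi β y) χ)) s - PS (ap (hi β y)) χ s‖ ≤
      (Module.finrank ℚ K : ℝ) * N * c₁ * y ^ (-(1 / 4 : ℝ)) := by
  set M : ℝ := (Module.finrank ℚ K : ℝ) * N with hM
  have hM0 : 0 ≤ M := by positivity
  have hy0 : 0 < y := by linarith
  have hβ' := norm_hi hβ y
  have hb := norm_bb (norm_tw hβ' χ)
  have hsum := summable_tm hb hs
  have h1 : FF (bb (tw (hi β y) χ)) s =
      ∑' p : Nat.Primes, ∑' k : ℕ, tm (bb (tw (hi β y) χ)) s (p, k) := by
    unfold FF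
    exact hsum.tsum_prod
  have hk : ∀ p : Nat.Primes, Summable fun k : ℕ => tm (bb (tw (hi β y) χ)) s (p, k) :=
    fun p => hsum.prod_factor p
  have h2 : ∀ p : Nat.Primes, ∑' k : ℕ, tm (bb (tw (hi β y) χ)) s (p, k) =
      ap (hi β y) p * (χ (p : ℕ) * ((p : ℕ) : ℂ) ^ (-s)) +
        ∑' k : ℕ, tm (bb (tw (hi β y) χ)) s (p, k + 1) := by
    intro p
    rw [(hk p).tsum_eq_zero_add]
    congr 1
    unfold tm LS.ap
    rw [dif_pos p.2, bb_tw]
    simp
    ring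
  have h3 : ∀ p : Nat.Primes, ‖∑' k : ℕ, tm (bb (tw (hi β y) χ)) s (p, k + 1)‖ ≤
      M * y ^ (-(1 / 4 : ℝ)) * (5 / 4 * ((p : ℕ) : ℝ) ^ (-(3 / 2 : ℝ))) := by
    intro p
    have hp0 := prime_pos p
    have hp2 := two_le_prime p
    have hinv : ‖((p : ℕ) : ℂ) ^ (-s)‖ ≤ ((p : ℕ) : ℝ)⁻¹ := by
      rw [norm_pr_cpow', ← Real.rpow_neg_one]
      have : (1 : ℝ) ≤ ((p : ℕ) : ℝ) := by exact_mod_cast p.2.one_le
      exact Real.rpow_le_rpow_of_exponent_le this (by linarith)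
    set x : ℝ := ‖((p : ℕ) : ℂ) ^ (-s)‖ with hx
    have hx0 : 0 ≤ x := norm_nonneg _
    set P : ℝ := ((p : ℕ) : ℝ) with hP
    set r : ℝ := P ^ (-(3 / 4 : ℝ)) with hr
    have hr0 : 0 < r := Real.rpow_pos_of_pos hp0 _
    have hr35 : r ≤ 3 / 5 := by
      have h5 : r ≤ (2 : ℝ) ^ (-(3 / 4 : ℝ)) :=
        Real.rpow_le_rpow_of_nonpos (by norm_num) hp2 (by norm_num)
      have h6 : (2 : ℝ) ^ (-(3 / 4 : ℝ)) ≤ 3 / 5 := by
        by_contra hcon
        rw [not_le] at hcon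
        have h7 : (3 / 5 : ℝ) ^ 4 < ((2 : ℝ) ^ (-(3 / 4 : ℝ))) ^ 4 :=
          pow_lt_pow_left₀ hcon (by norm_num) (by norm_num)
        have h8 : ((2 : ℝ) ^ (-(3 / 4 : ℝ))) ^ 4 = 1 / 8 := by
          rw [← Real.rpow_natCast, ← Real.rpow_mul (by norm_num)]
          norm_num
        rw [h8] at h7
        norm_num at h7
      exact h5.trans h6
    have hterm : ∀ k : ℕ, ‖tm (bb (tw (hi β y) χ)) s (p, k + 1)‖ ≤
        M / 2 * y ^ (-(1 / 4 : ℝ)) * P ^ (-(3 / 2 : ℝ)) * (3 / 5) ^ k := by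
      intro k
      unfold tm
      simp only
      rw [norm_mul, norm_pow, ← hx]
      by_cases hxy : P ^ (k + 1 + 1) ≤ y
      · rw [bb_hi β y χ (p, k + 1) hxy, norm_zero, zero_mul]
        positivity
      · rw [not_le] at hxy
        have h4 := hb (p, k + 1)
        simp only at h4
        have h5 : (2 : ℝ) ≤ ((k + 1 + 1 : ℕ) : ℝ) := by
          push_cast; linarith [Nat.cast_nonneg (α := ℝ) k]
        have h6 : ‖bb (tw (hi β y) χ) (p, k + 1)‖ ≤ M / 2 :=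
          h4.trans (div_le_div_of_nonneg_left hM0 (by norm_num) h5)
        have h7 : x ^ (k + 1 + 1) ≤ y ^ (-(1 / 4 : ℝ)) * (P ^ (-(3 / 2 : ℝ)) * (3 / 5) ^ k) := by
          have h8 : x ^ (k + 1 + 1) ≤ (P ^ (k + 1 + 1))⁻¹ := by
            rw [← inv_pow]
            exact pow_le_pow_left₀ hx0 hinv _
          have h9 : (P ^ (k + 1 + 1))⁻¹ = (P ^ (k + 1 + 1)) ^ (-(1 / 4 : ℝ)) *
              (P ^ (k + 1 + 1)) ^ (-(3 / 4 : ℝ)) := by
            rw [← Real.rpow_add (by positivity), ← Real.rpow_neg_one]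
            norm_num
          have h10 : (P ^ (k + 1 + 1)) ^ (-(1 / 4 : ℝ)) ≤ y ^ (-(1 / 4 : ℝ)) :=
            Real.rpow_le_rpow_of_nonpos hy0 hxy.le (by norm_num)
          have h11 : (P ^ (k + 1 + 1)) ^ (-(3 / 4 : ℝ)) = P ^ (-(3 / 2 : ℝ)) * r ^ k := by
            rw [hr, ← Real.rpow_natCast P (k + 1 + 1), ← Real.rpow_mul hp0.le,
              ← Real.rpow_natCast (P ^ (-(3 / 4 : ℝ))) k, ← Real.rpow_mul hp0.le,
              ← Real.rpow_add hp0]
            congr 1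
            push_cast
            ring
          refine h8.trans ?_
          rw [h9, h11]
          apply mul_le_mul h10 _ (by positivity) (by positivity)
          apply mul_le_mul_of_nonneg_left _ (by positivity)
          exact pow_le_pow_left₀ hr0.le hr35 k
        calc ‖bb (tw (hi β y) χ) (p, k + 1)‖ * x ^ (k + 1 + 1) ≤
              (M / 2) * (y ^ (-(1 / 4 : ℝ)) * (P ^ (-(3 / 2 : ℝ)) * (3 / 5) ^ k)) :=
              mul_le_mul h6 h7 (by positivity) (by positivity)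
          _ = _ := by ring
    have hg : HasSum (fun k : ℕ => M / 2 * y ^ (-(1 / 4 : ℝ)) * P ^ (-(3 / 2 : ℝ)) * (3 / 5 : ℝ) ^ k)
        (M / 2 * y ^ (-(1 / 4 : ℝ)) * P ^ (-(3 / 2 : ℝ)) * (1 - 3 / 5)⁻¹) :=
      (hasSum_geometric_of_lt_one (by norm_num) (by norm_num)).mul_left _
    refine (tsum_of_norm_bounded hg hterm).trans (le_of_eq ?_)
    ring
  have hps : Summable fun p : Nat.Primes => ((p : ℕ) : ℝ) ^ (-(3 / 2 : ℝ)) :=
    Nat.Primes.summable_rpow.2 (by norm_num)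
  have hs1 : Summable fun p : Nat.Primes => ap (hi β y) p * (χ (p : ℕ) * ((p : ℕ) : ℂ) ^ (-s)) := by
    refine Summable.of_norm_bounded (g := fun p : Nat.Primes => M * ((p : ℕ) : ℝ) ^ (-s.re))
      ((Nat.Primes.summable_rpow.2 (by linarith)).mul_left M) fun p => ?_
    rw [norm_mul, norm_mul, norm_pr_cpow']
    have h9 := norm_ap hβ' p p.2
    have h10 := χ.norm_le_one ((p : ℕ) : ZMod q)
    have h11 : 0 ≤ ((p : ℕ) : ℝ) ^ (-s.re) := Real.rpow_nonneg (prime_pos p).le _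
    calc _ ≤ M * (1 * ((p : ℕ) : ℝ) ^ (-s.re)) := by
          apply mul_le_mul h9 _ (by positivity) hM0
          exact mul_le_mul_of_nonneg_right h10 h11
      _ = _ := by ring
  have hsb := (hps.mul_left (5 / 4)).mul_left (M * y ^ (-(1 / 4 : ℝ)))
  have hs2 : Summable fun p : Nat.Primes => ∑' k : ℕ, tm (bb (tw (hi β y) χ)) s (p, k + 1) :=
    Summable.of_norm_bounded hsb h3
  have h12 : FF (bb (tw (hi β y) χ)) s - PS (ap (hi β y)) χ s =
      ∑' p : Nat.Primes, ∑' k : ℕ, tm (bb (tw (hi β y) χ)) s (p, k + 1) := by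
    rw [h1, tsum_congr h2, hs1.tsum_add hs2]
    unfold LS.PS
    ring
  rw [h12]
  refine (tsum_of_norm_bounded hsb.hasSum h3).trans (le_of_eq ?_)
  rw [tsum_mul_left, tsum_mul_left]
  unfold c₁
  ring

/-- **The small part of the logarithm.** -/
lemma PS_lo {β : HeightOneSpectrum (𝓞 K) → Fin N → ℂ} (hβ : ∀ v j, ‖β v j‖ ≤ 1) {q : ℕ}
    (χ : DirichletCharacter ℂ q) {y : ℝ} (hy : 0 ≤ y) {s : ℂ} (hs : 1 < s.re) :
    ‖PS (ap (lo β y)) χ s‖ ≤ (Module.finrank ℚ K : ℝ) * N *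
      ∑ p ∈ (range (⌊y⌋₊ + 1)).filter Nat.Prime, 1 / (p : ℝ) := by
  set M : ℝ := (Module.finrank ℚ K : ℝ) * N with hM
  have hM0 : 0 ≤ M := by positivity
  set g : ℕ → ℂ := fun p => ap (lo β y) p * (χ (p : ℕ) * (p : ℂ) ^ (-s)) with hg
  have h1 : PS (ap (lo β y)) χ s = ∑' n : ℕ, Set.indicator {p : ℕ | p.Prime} g n :=
    tsum_subtype {p : ℕ | p.Prime} g
  have h2 : ∀ n ∉ (range (⌊y⌋₊ + 1)).filter Nat.Prime, Set.indicator {p : ℕ | p.Prime} g n = 0 := by
    intro n hn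
    by_cases hp : n.Prime
    · rw [Set.indicator_of_mem (by exact hp)]
      rw [mem_filter, mem_range, not_and] at hn
      have h3 : ⌊y⌋₊ < n := by
        by_contra hc
        exact hn (by omega) hp
      have h4 : y < n := (Nat.floor_lt hy).1 h3
      simp only [hg]
      rw [ap_lo β y hp h4, zero_mul]
    · rw [Set.indicator_of_notMem (by exact hp)]
  rw [h1, tsum_eq_sum h2, mul_sum]
  apply norm_sum_le_of_le
  intro p hp
  have hpp := (mem_filter.1 hp).2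
  rw [Set.indicator_of_mem (by exact hpp)]
  simp only [hg]
  have hp0 : (0 : ℝ) < p := by exact_mod_cast hpp.pos
  rw [norm_mul, norm_mul, norm_natCast_cpow_of_pos hpp.pos, neg_re]
  have h9 := norm_ap (norm_lo hβ y) p hpp
  have h10 := χ.norm_le_one ((p : ℕ) : ZMod q)
  have h11 : (p : ℝ) ^ (-s.re) ≤ 1 / p := by
    rw [one_div, ← Real.rpow_neg_one]
    exact Real.rpow_le_rpow_of_exponent_le (by exact_mod_cast hpp.one_le) (by linarith)
  calc _ ≤ M * (1 * (1 / (p : ℝ))) := by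
        apply mul_le_mul h9 _ (by positivity) hM0
        exact mul_le_mul h10 h11 (Real.rpow_nonneg hp0.le _) (by norm_num)
    _ = _ := by ring

open Classical in
/-- **The twisted Euler products and the short Euler products.** -/
lemma hasProd_short (w : ℝ) (P : HeightOneSpectrum (𝓞 K) → ℂ[X])
    (h0 : ∀ v, (P v).coeff 0 = 1) (hN : ∀ v, (P v).natDegree ≤ N)
    (hroot : ∀ v, ∀ z : ℂ, (P v).IsRoot z → ((nm v : ℕ) : ℝ) ^ (-(w / 2)) ≤ ‖z‖) {y : ℝ}
    (hy : 1 ≤ y) :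
    ∃ a : ℕ → ℂ, (∀ p : ℕ, p.Prime → ‖a p‖ ≤ (Module.finrank ℚ K : ℝ) * N) ∧
      (∀ p : ℕ, p.Prime → (p : ℝ) ≤ y → a p = 0) ∧
      ∀ (q : ℕ) (χ : DirichletCharacter ℂ q) (s : ℂ), 1 + w / 2 < s.re → ∃ Λ Λ' : ℂ,
        HasProd (fun v => ((P v).eval (χ (nm v : ℕ) * ((nm v : ℕ) : ℂ) ^ (-s)))⁻¹)
          (Complex.exp (Λ + Λ')) ∧
        HasProd (fun v => if (nm v : ℝ) ≤ y then
          ((P v).eval (χ (nm v : ℕ) * ((nm v : ℕ) : ℂ) ^ (-s)))⁻¹ else 1) (Complex.exp Λ') ∧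
        ‖Λ - PS a χ (s - (w / 2 : ℝ))‖ ≤
          (Module.finrank ℚ K : ℝ) * N * c₁ * y ^ (-(1 / 4 : ℝ)) ∧
        ‖Λ'‖ ≤ (Module.finrank ℚ K : ℝ) * N *
          (∑ p ∈ (range (⌊y⌋₊ + 1)).filter Nat.Prime, 1 / (p : ℝ) + c₀) := by
  obtain ⟨β, h1, h2⟩ := exists_beta_all w P h0 hN hroot
  refine ⟨ap (hi β y), norm_ap (norm_hi h1 y), fun p hp hpy => ap_hi β y hp hpy, ?_⟩
  intro q χ s hs
  have hre : 1 < (s - (w / 2 : ℝ)).re := by
    rw [Complex.sub_re, Complex.ofReal_re]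
    linarith
  refine ⟨FF (bb (tw (hi β y) χ)) (s - (w / 2 : ℝ)), FF (bb (tw (lo β y) χ)) (s - (w / 2 : ℝ)),
    ?_, ?_, FF_PS_hi h1 χ hy hre, ?_⟩
  all_goals
    have key : ∀ v, ((P v).eval (χ (nm v : ℕ) * ((nm v : ℕ) : ℂ) ^ (-s)))⁻¹ =
        ∏ j, (1 - tw β χ v j * ((nm v : ℕ) : ℂ) ^ (-(s - (w / 2 : ℝ))))⁻¹ := by
      intro v
      rw [h2, ← Finset.prod_inv_distrib]
      apply Finset.prod_congr rfl
      intro j _
      congr 2
      unfold tw
      have hpos : (0 : ℝ) < ((nm v : ℕ) : ℝ) := by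
        rw [nm_eq, Nat.cast_pow]
        exact pow_pos (prime_pos _) _
      have hne : ((nm v : ℕ) : ℂ) ≠ 0 := by
        have := hpos.ne'
        exact_mod_cast this
      have h3 : ((nm v : ℕ) : ℂ) ^ (-(s - (w / 2 : ℝ))) =
          ((((nm v : ℕ) : ℝ) ^ (w / 2) : ℝ) : ℂ) * ((nm v : ℕ) : ℂ) ^ (-s) := by
        rw [show -(s - ((w / 2 : ℝ) : ℂ)) = ((w / 2 : ℝ) : ℂ) + -s by ring, cpow_add _ _ hne]
        congr 1
        rw [Complex.ofReal_cpow hpos.le]
        push_cast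
        rfl
      rw [h3]
      ring
  · have h3 := (hasProd_L (norm_tw (norm_hi h1 y) χ) hre).mul
      (hasProd_L (norm_tw (norm_lo h1 y) χ) hre)
    rw [← Complex.exp_add] at h3
    convert h3 using 1
    funext v
    rw [key, ← Finset.prod_mul_distrib]
    apply Finset.prod_congr rfl
    intro j _
    unfold tw hi lo
    split_ifs <;> simp
  · have h3 := hasProd_L (norm_tw (norm_lo h1 y) χ) hre
    convert h3 using 1
    funext v
    split_ifs with hv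
    · rw [key]
      apply Finset.prod_congr rfl
      intro j _
      unfold tw lo
      rw [if_pos hv]
    · symm
      apply Finset.prod_eq_one
      intro j _
      unfold tw lo
      rw [if_neg hv]
      simp
  · have h3 := FF_PS (norm_lo h1 y) χ hre
    have h4 := PS_lo h1 χ (by linarith : (0 : ℝ) ≤ y) hre
    set A := FF (bb (tw (lo β y) χ)) (s - (w / 2 : ℝ))
    set B := PS (ap (lo β y)) χ (s - (w / 2 : ℝ))
    have h5 : ‖A‖ ≤ ‖A - B‖ + ‖B‖ := by
      have := norm_add_le (A - B) B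
      rwa [sub_add_cancel] at this
    rw [mul_add]
    linarith

end

end Pool.Agent.H439.SP
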