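import Pool.Agent.H439.SP.Moment

set_option autoImplicit false

namespace Pool.Agent.H439.SP

open Finset Complex ComplexConjugate Pool.Agent.H439.LS

lemma PZ_one : PZ 1 = ∅ := by unfold PZ; decide

lemma sw_one (n : ℕ) : sw 1 n = 1 := by
  unfold sw
  rw [PZ_one, powerset_empty, sum_singleton, lz_empty le_rfl]
  unfold qq
  rw [prod_empty, if_pos (one_dvd n)]
  norm_num

lemma kz_one : kz 1 = 1 := by
  unfold kz
  rw [PZ_one, powerset_empty, sum_singleton, sum_singleton, lz_empty le_rfl]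
  unfold qq
  rw [union_self, prod_empty]
  norm_num

lemma Lz_one : Lz 1 = 1 := by
  unfold Lz
  rw [PZ_one, powerset_empty, sum_singleton, lz_empty le_rfl]
  norm_num

/-- the error of the large sieve -/
noncomputable def EE (Q : ℝ) (y : ℕ) : ℝ := 48 * (Q ^ 2 * (1 + 2 * Q * hr (6 * y)))

/-- **The large sieve for one dyadic block.** -/
theorem gblock {J : ℕ} {q : Fin J → ℕ} {χ : ∀ j, DirichletCharacter ℂ (q j)} {t : Fin J → ℝ}
    (h : Spaced q χ t) {Q : ℝ} (hq : ∀ j, (q j : ℝ) ≤ Q) (ht : ∀ j, |t j| ≤ Q)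
    {y : ℕ} (hy : 0 < y) (b : ℕ → ℂ) :
    ∑ j, ‖∑ n ∈ Ioc (2 * y) (4 * y), b n * (χ j n * ph (t j) n)‖ ^ 2 ≤
      (∑ n ∈ Ioc (2 * y) (4 * y), ‖b n‖ ^ 2) * (C0 * (31 * y) + J * EE Q y) := by
  classical
  rcases isEmpty_or_nonempty (Fin J) with hJ | hJ
  · rw [Finset.univ_eq_empty, sum_empty]
    have hJ0 : (J : ℝ) = 0 := by
      rcases Nat.eq_zero_or_pos J with h0 | h0
      · exact_mod_cast h0
      · exact (hJ.false ⟨0, h0⟩).elim
    rw [hJ0, zero_mul, add_zero]
    have := C0_nonneg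
    exact mul_nonneg (sum_nonneg fun _ _ => by positivity) (by positivity)
  obtain ⟨j0⟩ := hJ
  have hQ1 : 1 ≤ Q := by
    have := hq j0
    have h1 : (1 : ℝ) ≤ q j0 := by exact_mod_cast h.pos j0
    linarith
  set E : ℝ := EE Q y with hE
  have hhr := hr_nonneg (6 * y)
  have hE0 : 0 ≤ E := by rw [hE, EE]; positivity
  set φ : Fin J → ℕ → ℂ := fun j m => χ j ((m + 1 : ℕ) : ZMod (q j)) * ph (t j) (m + 1) with hφ
  set w : ℕ → ℝ := fun m => W y (m + 1) * sw 1 (m + 1) with hw
  set f : ℕ → ℂ := fun m => if 2 * y < m + 1 ∧ m + 1 ≤ 4 * y then b (m + 1) else 0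
    with hf
  have hw0 : ∀ m ∈ range (6 * y), 0 ≤ w m := fun m _ => mul_nonneg (W_nonneg _ _) (sw_nonneg _ _)
  -- the Gram entries
  have hgram : ∀ j k, ‖∑ n ∈ range (6 * y), (w n : ℂ) * (conj (φ j n) * φ k n)‖ ≤
      (if Agree (χ j) (χ k) then 31 * (y : ℝ) / (1 + (t k - t j) ^ 2) else 0) + E := by
    intro j k
    have e : ∑ n ∈ range (6 * y), (w n : ℂ) * (conj (φ j n) * φ k n) =
        ∑ m ∈ range (6 * y), ((W y (m + 1) * sw 1 (m + 1) : ℝ) : ℂ) *
          (pc (χ j) (χ k) (m + 1) * ph (t k - t j) (m + 1)) := by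
      apply sum_congr rfl
      intro m _
      simp only [hφ, hw]
      unfold pc
      rw [map_mul, conj_ph _ (Nat.succ_pos m), sub_eq_add_neg, ph_add _ _ (Nat.succ_pos m)]
      ring
    rw [e]
    have hqq : 0 < q j * q k := Nat.mul_pos (h.pos j) (h.pos k)
    have hg := gram hqq (periodic_pc (χ j) (χ k)) (norm_pc (χ j) (χ k)) (t k - t j) 1 hy
    have herr : 8 * er (t k - t j) (q j * q k) 1 (6 * y) ≤ E := by
      unfold er
      rw [Lz_one]
      have h1 : ((q j * q k : ℕ) : ℝ) ≤ Q ^ 2 := by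
        push_cast
        rw [sq]
        exact mul_le_mul (hq j) (hq k) (Nat.cast_nonneg _) (by linarith)
      have h2 : |t k - t j| ≤ 2 * Q := by
        have := abs_sub (t k) (t j)
        have := ht k
        have := ht j
        linarith [abs_sub (t k) (t j)]
      have h3 : 1 + |t k - t j| * hr (6 * y) ≤ 1 + 2 * Q * hr (6 * y) := by
        have := mul_le_mul_of_nonneg_right h2 hhr
        linarith
      rw [hE, EE]
      calc 8 * ((1 : ℝ) ^ 2 * (6 * ((q j * q k : ℕ) : ℝ) * (1 + |t k - t j| * hr (6 * y)))) =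
            48 * (((q j * q k : ℕ) : ℝ) * (1 + |t k - t j| * hr (6 * y))) := by ring
        _ ≤ 48 * (Q ^ 2 * (1 + 2 * Q * hr (6 * y))) := by
            apply mul_le_mul_of_nonneg_left _ (by positivity)
            exact mul_le_mul h1 h3 (by positivity) (by positivity)
    refine hg.trans (add_le_add ?_ herr)
    split_ifs with hA
    · have h5 := norm_kk_le hqq (periodic_pc (χ j) (χ k)) (norm_pc (χ j) (χ k)) 1
      rw [kz_one] at h5
      gcongr
      linarith
    · have : kk (pc (χ j) (χ k)) (q j * q k) 1 = 0 := by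
        unfold kk
        apply sum_eq_zero
        intro s _
        apply sum_eq_zero
        intro t _
        rw [mean_zero (h.pos j) (h.pos k) hA, zero_div, mul_zero]
      rw [this, norm_zero]
      simp
  set Γ : ℝ := C0 * (31 * y) + J * E with hΓ
  have hΓ0 : 0 ≤ Γ := by
    have := C0_nonneg
    positivity
  have hrow : ∀ j, ∑ k, ‖∑ n ∈ range (6 * y), (w n : ℂ) * (conj (φ j n) * φ k n)‖ ≤ Γ := by
    intro j
    refine (sum_le_sum fun k _ => hgram j k).trans ?_
    rw [sum_add_distrib, sum_const, card_univ, Fintype.card_fin, nsmul_eq_mul]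
    apply add_le_add _ le_rfl
    rw [← sum_filter]
    have e : ∑ k ∈ univ.filter (fun k => Agree (χ j) (χ k)),
        31 * (y : ℝ) / (1 + (t k - t j) ^ 2) =
        (∑ k ∈ univ.filter (fun k => Agree (χ j) (χ k)), 1 / (1 + (t k - t j) ^ 2)) *
          (31 * (y : ℝ)) := by
      rw [sum_mul]
      apply sum_congr rfl
      intro k _
      ring
    rw [e]
    apply mul_le_mul_of_nonneg_right _ (by positivity)
    apply spaced (v := fun k => t k - t j)
    intro a ha b' hb' hab
    rw [mem_filter] at ha hb'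
    have h6 : Agree (χ a) (χ b') := ha.2.symm.trans (h.pos _) (h.pos _) (h.pos _) hb'.2
    have h7 := h.sep a b' hab h6
    have e2 : t a - t j - (t b' - t j) = t a - t b' := by ring
    rw [e2]
    exact h7
  have key := bessel (range (6 * y)) w hw0 f φ Γ hΓ0 hrow
  -- the two sides
  have hgen : ∀ (E' : Type) [AddCommMonoid E'] (F : ℕ → E'),
      ∑ n ∈ range (6 * y), (if 2 * y < n + 1 ∧ n + 1 ≤ 4 * y then F (n + 1) else 0) =
      ∑ n ∈ Ioc (2 * y) (4 * y), F n := by
    intro E' _ F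
    rw [← sum_filter]
    refine sum_bij (fun m _ => m + 1) ?_ ?_ ?_ ?_
    · intro m hm
      rw [mem_filter, mem_range] at hm
      rw [mem_Ioc]
      exact hm.2
    · intro a _ c _ hac
      simpa using hac
    · intro p hp
      rw [mem_Ioc] at hp
      refine ⟨p - 1, ?_, by omega⟩
      rw [mem_filter, mem_range]
      have : p - 1 + 1 = p := by omega
      rw [this]
      exact ⟨by omega, hp⟩
    · intro m _
      rfl
  have hleft : ∀ j, ∑ n ∈ range (6 * y), (w n : ℂ) * (f n * φ j n) =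
      ∑ n ∈ Ioc (2 * y) (4 * y), b n * (χ j n * ph (t j) n) := by
    intro j
    rw [← hgen ℂ (fun n => b n * (χ j n * ph (t j) n))]
    apply sum_congr rfl
    intro n _
    simp only [hf, hw, hφ]
    split_ifs with hc
    · rw [W_eq_one hy (by omega) hc.2, sw_one]
      push_cast
      ring
    · simp
  have hright : ∑ n ∈ range (6 * y), w n * ‖f n‖ ^ 2 = ∑ n ∈ Ioc (2 * y) (4 * y), ‖b n‖ ^ 2 := by
    rw [← hgen ℝ (fun n => ‖b n‖ ^ 2)]
    apply sum_congr rfl
    intro n _
    simp only [hf, hw]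
    split_ifs with hc
    · rw [W_eq_one hy (by omega) hc.2, sw_one]
      ring
    · simp
  simp only [hleft] at key
  rw [hright] at key
  exact key

end Pool.Agent.H439.SP
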