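import Pool.Agent.H439.SP.VarTail

set_option autoImplicit false

namespace Pool.Agent.H439.SP

open Finset Complex ComplexConjugate Filter Topology Pool.Agent.H439.LS

lemma ev_pow (C : ℝ) {b : ℝ} (hb : 0 < b) (k : ℕ) :
    ∀ᶠ x : ℝ in atTop, C * x ^ k ≤ Real.exp (b * x) := by
  have h1 := (isLittleO_pow_exp_pos_mul_atTop (k := k) hb).const_mul_left C
  have h2 := h1.bound (c := 1) one_pos
  filter_upwards [h2] with x hx
  rw [one_mul, Real.norm_of_nonneg (Real.exp_nonneg _)] at hx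
  exact (le_abs_self _).trans hx

/-- the squares of the coefficients in a block -/
lemma sum_sq_block {m : ℕ} {a : ℕ → ℂ} {M : ℝ} (hM : 0 ≤ M) (ha : ∀ p : ℕ, p.Prime → ‖a p‖ ≤ M) :
    ∑ p ∈ (Ioc (2 ^ m) (2 ^ (m + 1))).filter Nat.Prime, ‖a p * (((p : ℝ)⁻¹ : ℝ) : ℂ)‖ ^ 2 ≤
      M ^ 2 / 2 ^ m := by
  have h1 : ∀ p ∈ (Ioc (2 ^ m) (2 ^ (m + 1))).filter Nat.Prime,
      ‖a p * (((p : ℝ)⁻¹ : ℝ) : ℂ)‖ ^ 2 ≤ M ^ 2 / (2 ^ m) ^ 2 := by
    intro p hp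
    rw [mem_filter, mem_Ioc] at hp
    have hp0 : (0 : ℝ) < p := by exact_mod_cast hp.2.pos
    have hp1 : (2 : ℝ) ^ m ≤ p := by exact_mod_cast hp.1.1.le
    rw [norm_mul, norm_real, Real.norm_of_nonneg (by positivity), mul_pow, div_eq_mul_inv, inv_pow]
    apply mul_le_mul (pow_le_pow_left₀ (norm_nonneg _) (ha p hp.2) 2) _ (by positivity)
      (by positivity)
    apply inv_anti₀ (by positivity)
    exact pow_le_pow_left₀ (by positivity) hp1 2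
  refine (sum_le_sum h1).trans ?_
  rw [sum_const, nsmul_eq_mul]
  have h2 : (((Ioc (2 ^ m) (2 ^ (m + 1))).filter Nat.Prime).card : ℝ) ≤ 2 ^ m := by
    have h3 := card_filter_le (Ioc (2 ^ m) (2 ^ (m + 1))) Nat.Prime
    rw [Nat.card_Ioc] at h3
    have h4 : 2 ^ (m + 1) - 2 ^ m = 2 ^ m := by rw [pow_succ]; omega
    rw [h4] at h3
    exact_mod_cast h3
  calc _ ≤ (2 : ℝ) ^ m * (M ^ 2 / (2 ^ m) ^ 2) := mul_le_mul_of_nonneg_right h2 (by positivity)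
    _ = M ^ 2 / 2 ^ m := by field_simp

lemma block_eq {J : ℕ} {q : Fin J → ℕ} (χ : ∀ j, DirichletCharacter ℂ (q j)) (t : Fin J → ℝ)
    (ε : Fin J → ℝ) (a : ℕ → ℂ) (S : Finset ℕ) (j : Fin J) :
    ∑ p ∈ S.filter Nat.Prime, (((p : ℝ) ^ (-(1 + ε j)) : ℝ) : ℂ) * (a p * (χ j p * ph (t j) p)) =
    ∑ p ∈ S.filter Nat.Prime,
      a p * (((p : ℝ)⁻¹ : ℝ) : ℂ) * ((((p : ℝ) ^ (-ε j) : ℝ) : ℂ) * (χ j p * ph (t j) p)) := by
  apply sum_congr rfl
  intro p hp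
  have hp0 : (0 : ℝ) < p := by exact_mod_cast (mem_filter.1 hp).2.pos
  rw [show -(1 + ε j) = -1 + -ε j by ring, Real.rpow_add hp0, Real.rpow_neg_one]
  push_cast
  ring

section
variable {J : ℕ} {q : Fin J → ℕ} {χ : ∀ j, DirichletCharacter ℂ (q j)} {t : Fin J → ℝ}

/-- **The number of the points with a large block.** -/
theorem mcount (h : Spaced q χ t) {Q : ℝ} (hQ : 0 ≤ Q) (hq : ∀ j, (q j : ℝ) ≤ Q)
    (ht : ∀ j, |t j| ≤ Q) {ε : Fin J → ℝ} (hε0 : ∀ j, 0 ≤ ε j) (hε1 : ∀ j, ε j ≤ 1)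
    {m k : ℕ} (hm : 1 ≤ m) (hk : 1 ≤ k) {a : ℕ → ℂ} {M : ℝ} (hM : 0 ≤ M)
    (ha : ∀ p : ℕ, p.Prime → ‖a p‖ ≤ M) {l : ℝ} (hl : 0 < l)
    (hbad : ∀ j, l ≤ ‖∑ p ∈ (Ioc (2 ^ m) (2 ^ (m + 1))).filter Nat.Prime,
      (((p : ℝ) ^ (-(1 + ε j)) : ℝ) : ℂ) * (a p * (χ j p * ph (t j) p))‖)
    (hstar : ((k : ℝ) * (k + 1)) ^ 2 * (k.factorial * (M ^ 2 / 2 ^ m) ^ k *
      EE Q (2 ^ ((m + 1) * k))) ≤ l ^ (2 * k) / 2) :
    (J : ℝ) ≤ 62 * C0 * (((k : ℝ) * (k + 1)) ^ 2 * (k.factorial * (2 * M ^ 2 / l ^ 2) ^ k)) := by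
  have hC0 := C0_nonneg
  have hEE := EE_nonneg hQ (2 ^ ((m + 1) * k))
  have h1 := moment h hQ hq ht hε0 hε1 hm hk (fun p => a p * (((p : ℝ)⁻¹ : ℝ) : ℂ))
  have h2 : (J : ℝ) * l ^ (2 * k) ≤ ∑ j, ‖∑ p ∈ (Ioc (2 ^ m) (2 ^ (m + 1))).filter Nat.Prime,
        (fun p : ℕ => a p * (((p : ℝ)⁻¹ : ℝ) : ℂ)) p *
          ((((p : ℝ) ^ (-ε j) : ℝ) : ℂ) * (χ j p * ph (t j) p))‖ ^ (2 * k) := by
    have e : (J : ℝ) * l ^ (2 * k) = ∑ _j : Fin J, l ^ (2 * k) := by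
      rw [sum_const, card_univ, Fintype.card_fin, nsmul_eq_mul]
    rw [e]
    apply sum_le_sum
    intro j _
    apply pow_le_pow_left₀ hl.le
    have := hbad j
    rw [block_eq] at this
    exact this
  have h3 := h2.trans h1
  set S2 : ℝ := ∑ p ∈ (Ioc (2 ^ m) (2 ^ (m + 1))).filter Nat.Prime,
    ‖(fun p : ℕ => a p * (((p : ℝ)⁻¹ : ℝ) : ℂ)) p‖ ^ 2 with hS2
  have h4 : S2 ≤ M ^ 2 / 2 ^ m := sum_sq_block hM ha
  have hS20 : 0 ≤ S2 := sum_nonneg fun _ _ => by positivity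
  have h5 : S2 ^ k ≤ (M ^ 2 / 2 ^ m) ^ k := pow_le_pow_left₀ hS20 h4 k
  set X : ℝ := ((k : ℝ) * (k + 1)) ^ 2 with hX
  have hX0 : 0 ≤ X := by positivity
  have h6 : X * (k.factorial * S2 ^ k * (C0 * (31 * 2 ^ ((m + 1) * k)) + J * EE Q (2 ^ ((m + 1) * k))))
      ≤ 31 * C0 * (X * (k.factorial * (2 * M ^ 2) ^ k)) + J * (l ^ (2 * k) / 2) := by
    have h7 : X * (k.factorial * S2 ^ k *
        (C0 * (31 * 2 ^ ((m + 1) * k)) + J * EE Q (2 ^ ((m + 1) * k)))) ≤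
        X * (k.factorial * (M ^ 2 / 2 ^ m) ^ k *
        (C0 * (31 * 2 ^ ((m + 1) * k)) + J * EE Q (2 ^ ((m + 1) * k)))) := by
      gcongr
    refine h7.trans ?_
    have h8 : (M ^ 2 / 2 ^ m) ^ k * 2 ^ ((m + 1) * k) = (2 * M ^ 2) ^ k := by
      rw [pow_mul, ← mul_pow]
      congr 1
      rw [pow_succ (2 : ℝ) m]
      field_simp
    have h9 : X * (k.factorial * (M ^ 2 / 2 ^ m) ^ k *
        (C0 * (31 * 2 ^ ((m + 1) * k)) + J * EE Q (2 ^ ((m + 1) * k)))) =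
        31 * C0 * (X * (k.factorial * ((M ^ 2 / 2 ^ m) ^ k * 2 ^ ((m + 1) * k)))) +
        J * (X * (k.factorial * (M ^ 2 / 2 ^ m) ^ k * EE Q (2 ^ ((m + 1) * k)))) := by ring
    rw [h9, h8]
    apply add_le_add le_rfl
    exact mul_le_mul_of_nonneg_left hstar (Nat.cast_nonneg J)
  have h7 := h3.trans h6
  have h8 : (J : ℝ) * l ^ (2 * k) ≤ 62 * C0 * (X * (k.factorial * (2 * M ^ 2) ^ k)) := by linarith
  have hlk : 0 < l ^ (2 * k) := by positivity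
  have h9 : 62 * C0 * (X * (k.factorial * (2 * M ^ 2 / l ^ 2) ^ k)) =
      62 * C0 * (X * (k.factorial * (2 * M ^ 2) ^ k)) / l ^ (2 * k) := by
    rw [div_pow, pow_mul]
    ring
  rw [h9, le_div_iff₀ hlk]
  exact h8

end

lemma alg_step {X F B B' L D E : ℝ} (hX : 0 ≤ X) (hF : 0 ≤ F) (hB : B ≤ B') (hB0 : 0 ≤ B)
    (hE : 0 ≤ E) (hL : 0 ≤ L) (hD : 0 < D) (h : 2 * (X * (F * B' * E)) ≤ D) :
    X * (F * (B * (L / D)) * E) ≤ L / 2 := by
  have e2 : X * (F * (B * (L / D)) * E) = (2 * (X * (F * B * E))) / D * (L / 2) := by ring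
  rw [e2]
  have h2 : (2 * (X * (F * B * E))) / D ≤ 1 := by
    rw [div_le_one hD]
    refine le_trans ?_ h
    gcongr
  exact mul_le_of_le_one_left (by positivity) h2

/-- **The numbers.** -/
lemma numbers {δ M : ℝ} (hδ : 0 < δ) (hδ1 : δ ≤ 1) (hM : 0 ≤ M) :
    ∀ᶠ ℓ : ℝ in atTop, ∀ n m : ℕ, 1 ≤ m → m ≤ n + 1 → (n : ℝ) + 1 ≤ 40 * ℓ →
      120 / δ * Real.log ℓ ≤ m * Real.log 2 → ∃ k : ℕ, 1 ≤ k ∧
      ((k : ℝ) * (k + 1)) ^ 2 * (k.factorial * (M ^ 2 / 2 ^ m) ^ k *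
        EE (Real.exp ℓ) (2 ^ ((m + 1) * k))) ≤ (1 / (8 * ℓ * (n + 1))) ^ (2 * k) / 2 ∧
      62 * C0 * (((k : ℝ) * (k + 1)) ^ 2 *
        (k.factorial * (2 * M ^ 2 / (1 / (8 * ℓ * (n + 1))) ^ 2) ^ k)) ≤
        502200 * C0 * ℓ ^ 10 * Real.exp (δ * ℓ / 4) := by
  filter_upwards [eventually_ge_atTop (1843200 * M ^ 2), eventually_ge_atTop 16,
    ev_pow (2 * 8100 * 8976) (b := 7 / 4) (by norm_num) 11] with ℓ hℓM hℓ1 hev
  intro n m hm hmn hn hmB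
  have hl2 : 0 < Real.log 2 := Real.log_pos (by norm_num)
  have hl2a := Real.log_two_gt_d9
  have hl2b := Real.log_two_lt_d9
  have hℓ0 : 0 < ℓ := by linarith
  have hm1 : (1 : ℝ) ≤ m := by exact_mod_cast hm
  have hlog : 0 < Real.log ℓ := Real.log_pos (by linarith)
  have hn0 : (0 : ℝ) ≤ n := Nat.cast_nonneg n
  set k : ℕ := ⌈5 * ℓ / (m * Real.log 2)⌉₊ with hk
  have hml : 0 < m * Real.log 2 := by positivity
  have hk1 : 5 * ℓ / (m * Real.log 2) ≤ k := Nat.le_ceil _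
  have hk2 : (k : ℝ) < 5 * ℓ / (m * Real.log 2) + 1 := Nat.ceil_lt_add_one (by positivity)
  have hkpos : 1 ≤ k := Nat.ceil_pos.2 (by positivity)
  have hkpos' : (1 : ℝ) ≤ k := by exact_mod_cast hkpos
  refine ⟨k, hkpos, ?_⟩
  have hk9 : (k : ℝ) ≤ 9 * ℓ := by
    have h1 : 5 * ℓ / (m * Real.log 2) ≤ 8 * ℓ := by
      rw [div_le_iff₀ hml]
      have : 0.69 ≤ (m : ℝ) * Real.log 2 := by nlinarith
      nlinarith
    linarith
  -- `(ℓ ^ 6) ^ k`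
  set Z : ℝ := (ℓ ^ 6) ^ k with hZ
  have hZ0 : 0 < Z := by positivity
  have hZle : Z ≤ ℓ ^ 6 * Real.exp (δ * ℓ / 4) := by
    have h1 : (k : ℝ) * Real.log ℓ ≤ Real.log ℓ + δ * ℓ / 24 := by
      have h2 : 5 * ℓ / (m * Real.log 2) ≤ δ * ℓ / (24 * Real.log ℓ) := by
        rw [div_le_div_iff₀ hml (by positivity)]
        have h3 : 120 * Real.log ℓ ≤ m * Real.log 2 * δ := by
          have := mul_le_mul_of_nonneg_right hmB hδ.le
          have e : 120 / δ * Real.log ℓ * δ = 120 * Real.log ℓ := by field_simp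
          rwa [e] at this
        nlinarith
      have h4 : (k : ℝ) ≤ δ * ℓ / (24 * Real.log ℓ) + 1 := by linarith
      have h5 := mul_le_mul_of_nonneg_right h4 hlog.le
      have e : (δ * ℓ / (24 * Real.log ℓ) + 1) * Real.log ℓ = Real.log ℓ + δ * ℓ / 24 := by
        field_simp
        ring
      rwa [e] at h5
    have h6 : Z = Real.exp (6 * (k * Real.log ℓ)) := by
      rw [hZ, ← pow_mul, ← Real.exp_log (pow_pos hℓ0 (6 * k)), Real.log_pow]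
      congr 1
      push_cast
      ring
    rw [h6]
    calc Real.exp (6 * (k * Real.log ℓ)) ≤ Real.exp (6 * Real.log ℓ + δ * ℓ / 4) := by
          apply Real.exp_le_exp.2
          linarith
      _ = ℓ ^ 6 * Real.exp (δ * ℓ / 4) := by
          rw [Real.exp_add]
          congr 1
          rw [← Real.exp_log (pow_pos hℓ0 6), Real.log_pow]
          push_cast
          rfl
  have hX : ((k : ℝ) * (k + 1)) ^ 2 ≤ 8100 * ℓ ^ 4 := by
    have h1 : (k : ℝ) + 1 ≤ 10 * ℓ := by linarith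
    calc ((k : ℝ) * (k + 1)) ^ 2 ≤ (9 * ℓ * (10 * ℓ)) ^ 2 := by gcongr
      _ = 8100 * ℓ ^ 4 := by ring
  have hfac : (k.factorial : ℝ) ≤ (9 * ℓ) ^ k := by
    have h1 : (k.factorial : ℝ) ≤ (k : ℝ) ^ k := by exact_mod_cast Nat.factorial_le_pow k
    exact h1.trans (pow_le_pow_left₀ (by positivity) hk9 k)
  have hlinv : (1 / (8 * ℓ * ((n : ℝ) + 1))) ^ 2 * (102400 * ℓ ^ 4) ≥ 1 := by
    have h1 : 8 * ℓ * ((n : ℝ) + 1) ≤ 320 * ℓ ^ 2 := by nlinarith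
    have h0 : 0 < 8 * ℓ * ((n : ℝ) + 1) := by positivity
    have h2 : 1 / (320 * ℓ ^ 2) ≤ 1 / (8 * ℓ * ((n : ℝ) + 1)) :=
      one_div_le_one_div_of_le h0 h1
    have h3 : (1 / (320 * ℓ ^ 2)) ^ 2 ≤ (1 / (8 * ℓ * ((n : ℝ) + 1))) ^ 2 :=
      pow_le_pow_left₀ (by positivity) h2 2
    have h4 : (1 / (320 * ℓ ^ 2)) ^ 2 * (102400 * ℓ ^ 4) = 1 := by
      field_simp
      norm_num
    have h5 := mul_le_mul_of_nonneg_right h3 (by positivity : 0 ≤ 102400 * ℓ ^ 4)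
    linarith
  set l : ℝ := 1 / (8 * ℓ * ((n : ℝ) + 1)) with hl
  have hl0 : 0 < l := by positivity
  have hMl : 2 * M ^ 2 / l ^ 2 ≤ 2 * M ^ 2 * (102400 * ℓ ^ 4) := by
    rw [div_le_iff₀ (by positivity)]
    have : 0 ≤ 2 * M ^ 2 := by positivity
    nlinarith
  have hZ2 : k.factorial * (2 * M ^ 2 / l ^ 2) ^ k ≤ Z := by
    calc (k.factorial : ℝ) * (2 * M ^ 2 / l ^ 2) ^ k ≤
          (9 * ℓ) ^ k * (2 * M ^ 2 * (102400 * ℓ ^ 4)) ^ k := by gcongr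
      _ = (1843200 * M ^ 2 * ℓ ^ 5) ^ k := by rw [← mul_pow]; congr 1; ring
      _ ≤ (ℓ ^ 6) ^ k := by
          apply pow_le_pow_left₀ (by positivity)
          have : 0 ≤ ℓ ^ 5 := by positivity
          calc 1843200 * M ^ 2 * ℓ ^ 5 ≤ ℓ * ℓ ^ 5 := mul_le_mul_of_nonneg_right hℓM this
            _ = ℓ ^ 6 := by ring
  have hC0 := C0_nonneg
  constructor
  · -- the error term
    have hEE : EE (Real.exp ℓ) (2 ^ ((m + 1) * k)) ≤ 8976 * ℓ * Real.exp (3 * ℓ) := by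
      unfold EE
      have h1 := hr_le (6 * 2 ^ ((m + 1) * k))
      have h2 : Real.log ((6 * 2 ^ ((m + 1) * k) : ℕ) : ℝ) = Real.log 6 + (m + 1) * k * Real.log 2 := by
        push_cast
        rw [Real.log_mul (by norm_num) (by positivity), Real.log_pow]
        push_cast
        rfl
      have h3' : Real.log 6 ≤ 3 := by
        have e6 : Real.log 6 ≤ Real.log 8 := Real.log_le_log (by norm_num) (by norm_num)
        have e8 : Real.log 8 = 3 * Real.log 2 := by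
          rw [show (8 : ℝ) = 2 ^ 3 by norm_num, Real.log_pow]; norm_num
        linarith
      have h4 : (m : ℝ) * k * Real.log 2 ≤ 5 * ℓ + m * Real.log 2 := by
        have h5 := mul_le_mul_of_nonneg_right hk2.le hml.le
        have e : (5 * ℓ / (m * Real.log 2) + 1) * (m * Real.log 2) = 5 * ℓ + m * Real.log 2 := by
          field_simp
        rw [e] at h5
        linarith
      have hmn' : (m : ℝ) ≤ 40 * ℓ := by
        have : (m : ℝ) ≤ n + 1 := by exact_mod_cast hmn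
        linarith
      have h6 : (m : ℝ) * Real.log 2 ≤ 40 * ℓ := by nlinarith
      have h7 : ((m : ℝ) + 1) * k * Real.log 2 ≤ 90 * ℓ := by
        have h8 : ((m : ℝ) + 1) * k * Real.log 2 ≤ 2 * (m * k * Real.log 2) := by
          have : (k : ℝ) * Real.log 2 ≤ m * (k * Real.log 2) :=
            le_mul_of_one_le_left (by positivity) hm1
          nlinarith
        linarith
      have h9 : hr (6 * 2 ^ ((m + 1) * k)) ≤ 93 * ℓ := by linarith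
      have h10 := hr_nonneg (6 * 2 ^ ((m + 1) * k))
      have h11 : 1 ≤ Real.exp ℓ := Real.one_le_exp hℓ0.le
      have h12 : 1 + 2 * Real.exp ℓ * hr (6 * 2 ^ ((m + 1) * k)) ≤ 187 * ℓ * Real.exp ℓ := by
        have : 2 * Real.exp ℓ * hr (6 * 2 ^ ((m + 1) * k)) ≤ 2 * Real.exp ℓ * (93 * ℓ) := by gcongr
        nlinarith
      calc 48 * (Real.exp ℓ ^ 2 * (1 + 2 * Real.exp ℓ * hr (6 * 2 ^ ((m + 1) * k)))) ≤
            48 * (Real.exp ℓ ^ 2 * (187 * ℓ * Real.exp ℓ)) := by gcongr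
        _ = 8976 * ℓ * (Real.exp ℓ ^ 3) := by ring
        _ = 8976 * ℓ * Real.exp (3 * ℓ) := by rw [← Real.exp_nat_mul]; norm_num
    have hE0 := EE_nonneg (Real.exp_nonneg ℓ) (2 ^ ((m + 1) * k))
    have h5ℓ : Real.exp (5 * ℓ) ≤ (2 : ℝ) ^ (m * k) := by
      have h1 : 5 * ℓ ≤ k * (m * Real.log 2) := by
        rw [div_le_iff₀ hml] at hk1
        exact hk1
      have h2 : (2 : ℝ) ^ (m * k) = Real.exp (k * (m * Real.log 2)) := by
        rw [← Real.exp_log (by positivity : (0 : ℝ) < 2 ^ (m * k)), Real.log_pow]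
        congr 1
        push_cast
        ring
      rw [h2]
      exact Real.exp_le_exp.2 h1
    have hfin : 2 * (((k : ℝ) * (k + 1)) ^ 2 * (k.factorial * (2 * M ^ 2 / l ^ 2) ^ k *
        EE (Real.exp ℓ) (2 ^ ((m + 1) * k)))) ≤ 2 ^ (m * k) := by
      calc 2 * (((k : ℝ) * (k + 1)) ^ 2 * (k.factorial * (2 * M ^ 2 / l ^ 2) ^ k *
          EE (Real.exp ℓ) (2 ^ ((m + 1) * k)))) ≤
          2 * (8100 * ℓ ^ 4 * (Z * (8976 * ℓ * Real.exp (3 * ℓ)))) := by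
            apply mul_le_mul_of_nonneg_left _ (by norm_num)
            apply mul_le_mul hX _ (by positivity) (by positivity)
            exact mul_le_mul hZ2 hEE hE0 hZ0.le
        _ ≤ 2 * (8100 * ℓ ^ 4 * ((ℓ ^ 6 * Real.exp (δ * ℓ / 4)) * (8976 * ℓ * Real.exp (3 * ℓ)))) := by
            gcongr
        _ = (2 * 8100 * 8976 * ℓ ^ 11) * Real.exp (δ * ℓ / 4 + 3 * ℓ) := by
            rw [Real.exp_add]; ring
        _ ≤ Real.exp (7 / 4 * ℓ) * Real.exp (ℓ / 4 + 3 * ℓ) := by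
            apply mul_le_mul hev _ (Real.exp_nonneg _) (Real.exp_nonneg _)
            apply Real.exp_le_exp.2
            nlinarith
        _ = Real.exp (5 * ℓ) := by rw [← Real.exp_add]; congr 1; ring
        _ ≤ _ := h5ℓ
    -- conclude
    have e1 : (M ^ 2 / 2 ^ m) ^ k = (M ^ 2 / l ^ 2) ^ k * (l ^ (2 * k) / 2 ^ (m * k)) := by
      rw [pow_mul l, pow_mul (2 : ℝ) m k, ← div_pow (l ^ 2) (2 ^ m) k, ← mul_pow]
      congr 1
      field_simp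
    have h1 : (M ^ 2 / l ^ 2) ^ k ≤ (2 * M ^ 2 / l ^ 2) ^ k := by
      apply pow_le_pow_left₀ (by positivity)
      apply div_le_div_of_nonneg_right _ (by positivity)
      linarith [sq_nonneg M]
    have hD0 : (0 : ℝ) < 2 ^ (m * k) := by positivity
    rw [e1]
    exact alg_step (sq_nonneg _) (Nat.cast_nonneg _) h1 (by positivity) hE0 (by positivity) hD0 hfin
  · calc 62 * C0 * (((k : ℝ) * (k + 1)) ^ 2 * (k.factorial * (2 * M ^ 2 / l ^ 2) ^ k)) ≤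
          62 * C0 * (8100 * ℓ ^ 4 * (ℓ ^ 6 * Real.exp (δ * ℓ / 4))) := by
            apply mul_le_mul_of_nonneg_left _ (by positivity)
            exact mul_le_mul hX (hZ2.trans hZle) (by positivity) (by positivity)
      _ = _ := by ring

end Pool.Agent.H439.SP
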