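import Pool.Agent.H439.SP.Abel

set_option autoImplicit false

namespace Pool.Agent.H439.SP

open Finset Complex ComplexConjugate Pool.Agent.H439.LS

/-- the coefficients of the `k`-th power of a Dirichlet polynomial over the primes in `S` -/
noncomputable def DP (S : Finset ℕ) (c : ℕ → ℂ) : ℕ → ℕ → ℂ
  | 0, n => if n = 1 then 1 else 0
  | k + 1, n => ∑ p ∈ S.filter (fun p => p ∣ n), c p * DP S c k (n / p)

lemma DP_succ (S : Finset ℕ) (c : ℕ → ℂ) (k n : ℕ) :
    DP S c (k + 1) n = ∑ p ∈ S.filter (fun p => p ∣ n), c p * DP S c k (n / p) := rfl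

/-- the support -/
lemma DP_support {S : Finset ℕ} {c : ℕ → ℂ} (hS : ∀ p ∈ S, p.Prime) {a b : ℕ}
    (hab : ∀ p ∈ S, a ≤ p ∧ p ≤ b) (k : ℕ) : ∀ n, DP S c k n ≠ 0 →
      0 < n ∧ a ^ k ≤ n ∧ n ≤ b ^ k ∧ n.primeFactors.card ≤ k := by
  induction k with
  | zero =>
    intro n hn
    have : n = 1 := by
      by_contra h
      exact hn (by unfold DP; rw [if_neg h])
    subst this
    simp
  | succ k ih =>
    intro n hn
    rw [DP_succ] at hn
    obtain ⟨p, hp, hne⟩ := exists_ne_zero_of_sum_ne_zero hn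
    rw [mem_filter] at hp
    obtain ⟨m, rfl⟩ := hp.2
    have hpp := hS p hp.1
    have e : p * m / p = m := Nat.mul_div_cancel_left _ hpp.pos
    rw [e] at hne
    have hm : DP S c k m ≠ 0 := fun h => hne (by rw [h, mul_zero])
    obtain ⟨h1, h2, h3, h4⟩ := ih m hm
    obtain ⟨h5, h6⟩ := hab p hp.1
    refine ⟨Nat.mul_pos hpp.pos h1, ?_, ?_, ?_⟩
    · rw [pow_succ, mul_comm]
      exact Nat.mul_le_mul h5 h2
    · rw [pow_succ, mul_comm (b ^ k)]
      exact Nat.mul_le_mul h6 h3
    · rw [Nat.primeFactors_mul hpp.ne_zero h1.ne', hpp.primeFactors]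
      refine (card_union_le _ _).trans ?_
      rw [card_singleton]
      omega

/-- the reindexing of the sums over the multiples -/
lemma sum_mult {S : Finset ℕ} (hS : ∀ p ∈ S, p.Prime) {E : Type*} [AddCommMonoid E] (N : ℕ)
    (H : ℕ → ℕ → E) :
    ∑ n ∈ range N, ∑ p ∈ S.filter (fun p => p ∣ n), H p (n / p) =
      ∑ p ∈ S, ∑ m ∈ (range N).filter (fun m => p * m < N), H p m := by
  have h1 : ∀ n ∈ range N, ∑ p ∈ S.filter (fun p => p ∣ n), H p (n / p) =
      ∑ p ∈ S, if p ∣ n then H p (n / p) else 0 := by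
    intro n _
    rw [sum_filter]
  rw [sum_congr rfl h1, sum_comm]
  apply sum_congr rfl
  intro p hp
  have hpp := hS p hp
  rw [← sum_filter]
  refine sum_bij' (fun n _ => n / p) (fun m _ => p * m) ?_ ?_ ?_ ?_ ?_
  · intro n hn
    rw [mem_filter, mem_range] at hn ⊢
    rw [Nat.mul_div_cancel' hn.2]
    exact ⟨lt_of_le_of_lt (Nat.div_le_self _ _) hn.1, hn.1⟩
  · intro m hm
    rw [mem_filter, mem_range] at hm
    rw [mem_filter, mem_range]
    exact ⟨hm.2, Dvd.intro _ rfl⟩
  · intro n hn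
    rw [mem_filter] at hn
    exact Nat.mul_div_cancel' hn.2
  · intro m _
    exact Nat.mul_div_cancel_left _ hpp.pos
  · intro n _
    rfl

/-- **The powers.** -/
theorem DP_pow {S : Finset ℕ} {c : ℕ → ℂ} (hS : ∀ p ∈ S, p.Prime) {b : ℕ}
    (hb : ∀ p ∈ S, p ≤ b) (hb1 : 1 ≤ b) {g : ℕ → ℂ} (g1 : g 1 = 1)
    (hg : ∀ p ∈ S, ∀ m, 0 < m → g (p * m) = g p * g m) (k : ℕ) : ∀ N, b ^ k < N →
      ∑ n ∈ range N, DP S c k n * g n = (∑ p ∈ S, c p * g p) ^ k := by
  induction k with
  | zero =>
    intro N hN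
    rw [pow_zero] at hN ⊢
    have : ∀ n ∈ range N, DP S c 0 n * g n = if n = 1 then g 1 else 0 := by
      intro n _
      unfold DP
      split_ifs with h
      · rw [h, one_mul]
      · rw [zero_mul]
    rw [sum_congr rfl this, sum_ite_eq' (range N) 1, if_pos (mem_range.2 hN), g1]
  | succ k ih =>
    intro N hN
    have hk : b ^ k ≤ b ^ (k + 1) := Nat.pow_le_pow_right hb1 (by omega)
    have h1 : ∀ n ∈ range N, DP S c (k + 1) n * g n =
        ∑ p ∈ S.filter (fun p => p ∣ n), (fun p m => c p * DP S c k m * g (p * m)) p (n / p) := by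
      intro n _
      rw [DP_succ, sum_mul]
      apply sum_congr rfl
      intro p hp
      rw [mem_filter] at hp
      simp only
      rw [Nat.mul_div_cancel' hp.2]
    rw [sum_congr rfl h1]
    refine (sum_mult hS N (fun p m => c p * DP S c k m * g (p * m))).trans ?_
    have h2 : ∀ p ∈ S, ∑ m ∈ (range N).filter (fun m => p * m < N),
        (fun p m => c p * DP S c k m * g (p * m)) p m =
        c p * g p * ∑ m ∈ range N, DP S c k m * g m := by
      intro p hp
      simp only
      rw [sum_filter, mul_sum]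
      apply sum_congr rfl
      intro m _
      by_cases hm : DP S c k m = 0
      · rw [hm]; simp
      · obtain ⟨h3, -, h4, -⟩ := DP_support hS (a := 0) (b := b)
          (fun p hp => ⟨Nat.zero_le _, hb p hp⟩) k m hm
        have h5 : p * m < N := by
          refine lt_of_le_of_lt ?_ hN
          rw [pow_succ, mul_comm (b ^ k)]
          exact Nat.mul_le_mul (hb p hp) h4
        rw [if_pos h5, hg p hp m h3]
        ring
    rw [sum_congr rfl h2, ← sum_mul, ih N (lt_of_le_of_lt hk hN), pow_succ, mul_comm]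

/-- **The mean square of the coefficients.** -/
theorem DP_l2 {S : Finset ℕ} (c : ℕ → ℂ) (hS : ∀ p ∈ S, p.Prime) (k N : ℕ) :
    ∑ n ∈ range N, ‖DP S c k n‖ ^ 2 ≤ k.factorial * (∑ p ∈ S, ‖c p‖ ^ 2) ^ k := by
  induction k with
  | zero =>
    rw [Nat.factorial_zero, pow_zero, Nat.cast_one, mul_one]
    have : ∀ n ∈ range N, ‖DP S c 0 n‖ ^ 2 = if n = 1 then 1 else 0 := by
      intro n _
      unfold DP
      split_ifs <;> simp
    rw [sum_congr rfl this, sum_ite_eq' (range N) 1]
    split_ifs <;> norm_num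
  | succ k ih =>
    have h1 : ∀ n ∈ range N, ‖DP S c (k + 1) n‖ ^ 2 ≤
        ∑ p ∈ S.filter (fun p => p ∣ n),
          (fun p m => ((k : ℝ) + 1) * (‖c p‖ ^ 2 * ‖DP S c k m‖ ^ 2)) p (n / p) := by
      intro n _
      by_cases hn : DP S c (k + 1) n = 0
      · rw [hn, norm_zero]
        have : (0 : ℝ) ^ 2 = 0 := by norm_num
        rw [this]
        exact sum_nonneg fun p _ => by positivity
      obtain ⟨hn0, -, -, hcard⟩ := DP_support hS (a := 0) (b := S.sup id)
          (fun p hp => ⟨Nat.zero_le _, le_sup (f := id) hp⟩) (k + 1) n hn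
      have hsub : S.filter (fun p => p ∣ n) ⊆ n.primeFactors := by
        intro p hp
        rw [mem_filter] at hp
        exact Nat.mem_primeFactors.2 ⟨hS p hp.1, hp.2, hn0.ne'⟩
      have hc : ((S.filter (fun p => p ∣ n)).card : ℝ) ≤ (k : ℝ) + 1 := by
        have := (card_le_card hsub).trans hcard
        exact_mod_cast this
      rw [DP_succ]
      have h2 := norm_sum_le (S.filter (fun p => p ∣ n)) (fun p => c p * DP S c k (n / p))
      have h3 := pow_le_pow_left₀ (norm_nonneg _) h2 2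
      refine h3.trans ?_
      have h4 := sq_sum_le_card_mul_sum_sq (s := S.filter (fun p => p ∣ n))
        (f := fun p => ‖c p * DP S c k (n / p)‖)
      refine h4.trans ?_
      simp only
      rw [← mul_sum]
      apply mul_le_mul hc _ (sum_nonneg fun p _ => by positivity) (by positivity)
      apply sum_le_sum
      intro p _
      rw [norm_mul, mul_pow]
    refine (sum_le_sum h1).trans ?_
    refine (sum_mult hS N (fun p m => ((k : ℝ) + 1) * (‖c p‖ ^ 2 * ‖DP S c k m‖ ^ 2))).le.trans ?_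
    have h2 : ∀ p ∈ S, ∑ m ∈ (range N).filter (fun m => p * m < N),
        (fun p m => ((k : ℝ) + 1) * (‖c p‖ ^ 2 * ‖DP S c k m‖ ^ 2)) p m ≤
        ((k : ℝ) + 1) * ‖c p‖ ^ 2 * (k.factorial * (∑ p ∈ S, ‖c p‖ ^ 2) ^ k) := by
      intro p _
      simp only
      rw [← mul_sum, ← mul_sum, ← mul_assoc]
      apply mul_le_mul_of_nonneg_left _ (by positivity)
      refine le_trans ?_ ih
      exact sum_le_sum_of_subset_of_nonneg (filter_subset _ _) fun _ _ _ => by positivity
    refine (sum_le_sum h2).trans (le_of_eq ?_)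
    rw [← sum_mul, ← mul_sum, Nat.factorial_succ, pow_succ]
    push_cast
    ring

end Pool.Agent.H439.SP
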