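import Pool.Agent.H439.SP.GenBlock

set_option autoImplicit false

namespace Pool.Agent.H439.SP

open Finset Complex ComplexConjugate Pool.Agent.H439.LS

lemma hr_mono {m n : ℕ} (h : m ≤ n) : hr m ≤ hr n := by
  unfold hr
  exact sum_le_sum_of_subset_of_nonneg (range_mono h) fun _ _ _ => by positivity

lemma EE_nonneg {Q : ℝ} (hQ : 0 ≤ Q) (y : ℕ) : 0 ≤ EE Q y := by
  unfold EE
  have := hr_nonneg (6 * y)
  positivity

lemma EE_mono {Q : ℝ} (hQ : 0 ≤ Q) {y y' : ℕ} (h : y ≤ y') : EE Q y ≤ EE Q y' := by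
  unfold EE
  have := hr_mono (Nat.mul_le_mul_left 6 h)
  gcongr

lemma sum_dyadic {E : Type*} [AddCommMonoid E] (F : ℕ → E) {a b : ℕ} (hab : a ≤ b) :
    ∑ n ∈ Ioc (2 ^ a) (2 ^ b), F n = ∑ i ∈ Ico a b, ∑ n ∈ Ioc (2 ^ i) (2 ^ (i + 1)), F n := by
  induction b, hab using Nat.le_induction with
  | base => simp
  | succ b hb ih =>
    rw [sum_Ico_succ_top hb, ← ih]
    have h1 : 2 ^ a ≤ 2 ^ b := Nat.pow_le_pow_right (by norm_num) hb
    have h2 : 2 ^ b ≤ 2 ^ (b + 1) := Nat.pow_le_pow_right (by norm_num) (by omega)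
    rw [← Finset.sum_Ioc_consecutive F h1 h2]

section
variable {J : ℕ} {q : Fin J → ℕ} {χ : ∀ j, DirichletCharacter ℂ (q j)} {t : Fin J → ℝ}

lemma gsum (h : Spaced q χ t) {Q : ℝ} (hQ : 0 ≤ Q) (hq : ∀ j, (q j : ℝ) ≤ Q) (ht : ∀ j, |t j| ≤ Q)
    {a b : ℕ} (ha : 1 ≤ a) (hab : a ≤ b) (f : ℕ → ℂ) :
    l2 (fun j => ∑ n ∈ Ioc (2 ^ a) (2 ^ b), f n * (χ j n * ph (t j) n)) ≤
      ((b - a : ℕ) : ℝ) * Real.sqrt ((∑ n ∈ Ioc (2 ^ a) (2 ^ b), ‖f n‖ ^ 2) *
        (C0 * (31 * 2 ^ b) + J * EE Q (2 ^ b))) := by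
  have e : (fun j => ∑ n ∈ Ioc (2 ^ a) (2 ^ b), f n * (χ j n * ph (t j) n)) =
      fun j => ∑ i ∈ Ico a b, (fun i j => ∑ n ∈ Ioc (2 ^ i) (2 ^ (i + 1)),
        f n * (χ j n * ph (t j) n)) i j := by
    funext j
    exact sum_dyadic (fun n => f n * (χ j n * ph (t j) n)) hab
  rw [e]
  refine (l2_sum_le (Ico a b) (fun i j => ∑ n ∈ Ioc (2 ^ i) (2 ^ (i + 1)),
        f n * (χ j n * ph (t j) n))).trans ?_
  have h1 : ∀ i ∈ Ico a b, l2 (fun j => ∑ n ∈ Ioc (2 ^ i) (2 ^ (i + 1)),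
        f n * (χ j n * ph (t j) n)) ≤ Real.sqrt ((∑ n ∈ Ioc (2 ^ a) (2 ^ b), ‖f n‖ ^ 2) *
        (C0 * (31 * 2 ^ b) + J * EE Q (2 ^ b))) := by
    intro i hi
    rw [mem_Ico] at hi
    have e1 : 2 ^ i = 2 * 2 ^ (i - 1) := by
      conv_lhs => rw [show i = (i - 1) + 1 by omega]
      rw [pow_succ]; ring
    have e2 : 2 ^ (i + 1) = 4 * 2 ^ (i - 1) := by
      conv_lhs => rw [show i + 1 = (i - 1) + 1 + 1 by omega]
      rw [pow_succ, pow_succ]; ring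
    have h2 := gblock h hq ht (y := 2 ^ (i - 1)) (by positivity) f
    rw [← e1, ← e2] at h2
    rw [l2_eq]
    apply Real.sqrt_le_sqrt
    refine h2.trans ?_
    have hC0 := C0_nonneg
    have h3 : 2 ^ (i - 1) ≤ 2 ^ b := Nat.pow_le_pow_right (by norm_num) (by omega)
    have h4 := EE_mono hQ h3
    have h5 : ((2 ^ (i - 1) : ℕ) : ℝ) ≤ 2 ^ b := by exact_mod_cast h3
    have h6 := EE_nonneg hQ (2 ^ (i - 1))
    apply mul_le_mul _ _ (by positivity) (sum_nonneg fun _ _ => by positivity)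
    · apply sum_le_sum_of_subset_of_nonneg _ fun _ _ _ => by positivity
      apply Ioc_subset_Ioc
      · exact Nat.pow_le_pow_right (by norm_num) (by omega)
      · exact Nat.pow_le_pow_right (by norm_num) (by omega)
    · gcongr
  refine (sum_le_sum h1).trans (le_of_eq ?_)
  rw [sum_const, Nat.card_Ico, nsmul_eq_mul]

lemma sum_inv_dyadic {a b : ℕ} (hab : a ≤ b) :
    ∑ u ∈ Ico ((2 : ℕ) ^ a) (2 ^ b), 1 / (u : ℝ) ≤ ((b - a : ℕ) : ℝ) := by
  induction b, hab using Nat.le_induction with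
  | base => simp
  | succ b hb ih =>
    have h1 : 2 ^ a ≤ 2 ^ b := Nat.pow_le_pow_right (by norm_num) hb
    have h2 : 2 ^ b ≤ 2 ^ (b + 1) := Nat.pow_le_pow_right (by norm_num) (by omega)
    rw [← Finset.sum_Ico_consecutive _ h1 h2]
    have h3 : ∀ u ∈ Ico ((2 : ℕ) ^ b) (2 ^ (b + 1)), 1 / (u : ℝ) ≤ 1 / 2 ^ b := by
      intro u hu
      rw [mem_Ico] at hu
      apply div_le_div_of_nonneg_left (by norm_num) (by positivity)
      exact_mod_cast hu.1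
    have h4 := sum_le_sum h3
    rw [sum_const, Nat.card_Ico, nsmul_eq_mul] at h4
    have h5 : ((2 ^ (b + 1) - 2 ^ b : ℕ) : ℝ) * (1 / 2 ^ b) = 1 := by
      have : 2 ^ (b + 1) - 2 ^ b = 2 ^ b := by rw [pow_succ]; omega
      rw [this]
      push_cast
      field_simp
    rw [h5] at h4
    have h6 : ((b + 1 - a : ℕ) : ℝ) = ((b - a : ℕ) : ℝ) + 1 := by
      rw [show b + 1 - a = (b - a) + 1 by omega]
      push_cast
      rfl
    rw [h6]
    linarith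

/-- **The powers of the block sums.** -/
theorem moment (h : Spaced q χ t) {Q : ℝ} (hQ : 0 ≤ Q) (hq : ∀ j, (q j : ℝ) ≤ Q)
    (ht : ∀ j, |t j| ≤ Q) {ε : Fin J → ℝ} (hε0 : ∀ j, 0 ≤ ε j) (hε1 : ∀ j, ε j ≤ 1)
    {m k : ℕ} (hm : 1 ≤ m) (hk : 1 ≤ k) (c : ℕ → ℂ) :
    ∑ j, ‖∑ p ∈ (Ioc (2 ^ m) (2 ^ (m + 1))).filter Nat.Prime,
        c p * ((((p : ℝ) ^ (-ε j) : ℝ) : ℂ) * (χ j p * ph (t j) p))‖ ^ (2 * k) ≤
      ((k : ℝ) * (k + 1)) ^ 2 * (k.factorial *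
        (∑ p ∈ (Ioc (2 ^ m) (2 ^ (m + 1))).filter Nat.Prime, ‖c p‖ ^ 2) ^ k *
        (C0 * (31 * 2 ^ ((m + 1) * k)) + J * EE Q (2 ^ ((m + 1) * k)))) := by
  classical
  set S : Finset ℕ := (Ioc (2 ^ m) (2 ^ (m + 1))).filter Nat.Prime with hS
  have hSp : ∀ p ∈ S, p.Prime := fun p hp => (mem_filter.1 hp).2
  have hSb : ∀ p ∈ S, 2 ^ m + 1 ≤ p ∧ p ≤ 2 ^ (m + 1) := by
    intro p hp
    have := (mem_filter.1 hp).1
    rw [mem_Ioc] at this
    exact ⟨this.1, this.2⟩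
  have hsup : ∀ n, DP S c k n ≠ 0 → n ∈ Ioc (2 ^ (m * k)) (2 ^ ((m + 1) * k)) := by
    intro n hn
    obtain ⟨h1, h2, h3, -⟩ := DP_support hSp hSb k n hn
    rw [mem_Ioc, pow_mul, pow_mul]
    refine ⟨lt_of_lt_of_le ?_ h2, h3⟩
    exact Nat.pow_lt_pow_left (Nat.lt_succ_self _) (by omega)
  set D : ℕ → ℂ := DP S c k with hD
  set F : ℝ := k.factorial * (∑ p ∈ S, ‖c p‖ ^ 2) ^ k with hF
  have hF0 : 0 ≤ F := by positivity
  set Γ : ℝ := C0 * (31 * 2 ^ ((m + 1) * k)) + J * EE Q (2 ^ ((m + 1) * k)) with hΓ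
  have hΓ0 : 0 ≤ Γ := by
    have := C0_nonneg
    have := EE_nonneg hQ (2 ^ ((m + 1) * k))
    positivity
  have hab : m * k ≤ (m + 1) * k := Nat.mul_le_mul_right k (by omega)
  have hdiff : (m + 1) * k - m * k = k := by rw [add_mul, one_mul]; omega
  have ha1 : 1 ≤ m * k := Nat.mul_pos hm hk
  have hpow : 2 ^ (m * k) ≤ 2 ^ ((m + 1) * k) := Nat.pow_le_pow_right (by norm_num) hab
  -- the partial sums
  have hpart : ∀ u, 2 ^ (m * k) ≤ u → u ≤ 2 ^ ((m + 1) * k) →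
      l2 (fun j => ∑ n ∈ Ioc (2 ^ (m * k)) u, (fun j n => D n * (χ j n * ph (t j) n)) j n) ≤
        k * Real.sqrt (F * Γ) := by
    intro u hu1 hu2
    set f : ℕ → ℂ := fun n => if n ≤ u then D n else 0 with hf
    have e1 : (fun j => ∑ n ∈ Ioc (2 ^ (m * k)) u, (fun j n => D n * (χ j n * ph (t j) n)) j n) =
        fun j => ∑ n ∈ Ioc (2 ^ (m * k)) (2 ^ ((m + 1) * k)), f n * (χ j n * ph (t j) n) := by
      funext j
      simp only
      have e2 : Ioc (2 ^ (m * k)) u = (Ioc (2 ^ (m * k)) (2 ^ ((m + 1) * k))).filter (fun n => n ≤ u) := by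
        ext n
        rw [mem_filter, mem_Ioc, mem_Ioc]
        omega
      rw [e2, sum_filter]
      apply sum_congr rfl
      intro n _
      simp only [hf]
      split_ifs <;> simp
    rw [e1]
    refine (gsum h hQ hq ht ha1 hab f).trans ?_
    rw [hdiff]
    apply mul_le_mul_of_nonneg_left _ (Nat.cast_nonneg k)
    apply Real.sqrt_le_sqrt
    apply mul_le_mul_of_nonneg_right _ hΓ0
    have h1 : ∀ n ∈ Ioc (2 ^ (m * k)) (2 ^ ((m + 1) * k)), ‖f n‖ ^ 2 ≤ ‖D n‖ ^ 2 := by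
      intro n _
      simp only [hf]
      split_ifs
      · exact le_rfl
      · rw [norm_zero, zero_pow two_ne_zero]; positivity
    refine (sum_le_sum h1).trans ?_
    refine le_trans ?_ (DP_l2 c hSp k (2 ^ ((m + 1) * k) + 1))
    refine sum_le_sum_of_subset_of_nonneg ?_ fun _ _ _ => sq_nonneg _
    intro n hn
    rw [mem_Ioc] at hn
    rw [mem_range]
    omega
  -- summation by parts
  have hkey := l2_abel (fun j n => D n * (χ j n * ph (t j) n)) (fun j n => (n : ℝ) ^ (-ε j)) hpow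
    hpart (fun u => 1 / (u : ℝ)) (W := 1) (by
      intro j
      rw [abs_of_nonneg (Real.rpow_nonneg (Nat.cast_nonneg _) _)]
      apply Real.rpow_le_one_of_one_le_of_nonpos _ (by linarith [hε0 j])
      exact_mod_cast Nat.one_le_two_pow) (by norm_num) (by
      intro j u hu
      rw [mem_Ico] at hu
      have hu0 : 0 < u := lt_of_lt_of_le (by positivity) hu.1
      obtain ⟨h1, h2⟩ := rpow_diff (hε0 j) hu0
      rw [abs_of_nonneg h1]
      refine h2.trans ?_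
      have hu1 : (1 : ℝ) ≤ u := by exact_mod_cast hu0
      apply div_le_div_of_nonneg_right _ (Nat.cast_nonneg u)
      have h3 : (u : ℝ) ^ (-ε j) ≤ 1 := Real.rpow_le_one_of_one_le_of_nonpos hu1 (by linarith [hε0 j])
      have h4 : 0 ≤ (u : ℝ) ^ (-ε j) := Real.rpow_nonneg (Nat.cast_nonneg _) _
      have := hε0 j
      have := hε1 j
      nlinarith) (fun u _ => by positivity)
  have hsumw := sum_inv_dyadic hab
  rw [hdiff] at hsumw
  have hB0 : 0 ≤ k * Real.sqrt (F * Γ) := by positivity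
  have hkey2 : l2 (fun j => ∑ n ∈ Ioc ((2 : ℕ) ^ (m * k)) (2 ^ ((m + 1) * k)),
      (((n : ℝ) ^ (-ε j) : ℝ) : ℂ) * (D n * (χ j n * ph (t j) n))) ≤
      ((k : ℝ) + 1) * (k * Real.sqrt (F * Γ)) := by
    refine hkey.trans ?_
    apply mul_le_mul_of_nonneg_right _ hB0
    linarith
  -- the powers
  have hpw : ∀ j, ∑ n ∈ Ioc ((2 : ℕ) ^ (m * k)) (2 ^ ((m + 1) * k)),
      (((n : ℝ) ^ (-ε j) : ℝ) : ℂ) * (D n * (χ j n * ph (t j) n)) =
      (∑ p ∈ S, c p * ((((p : ℝ) ^ (-ε j) : ℝ) : ℂ) * (χ j p * ph (t j) p))) ^ k := by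
    intro j
    set g : ℕ → ℂ := fun n => (((n : ℝ) ^ (-ε j) : ℝ) : ℂ) * (χ j n * ph (t j) n) with hg
    have g1 : g 1 = 1 := by
      simp only [hg]
      unfold ph
      simp
    have hgm : ∀ p ∈ S, ∀ n, 0 < n → g (p * n) = g p * g n := by
      intro p _ n _
      simp only [hg]
      rw [ph_mul]
      push_cast
      rw [Real.mul_rpow (Nat.cast_nonneg _) (Nat.cast_nonneg _), map_mul]
      push_cast
      ring
    have h1 := DP_pow (c := c) hSp (b := 2 ^ (m + 1)) (fun p hp => (hSb p hp).2) Nat.one_le_two_pow g1 hgm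
      k (2 ^ ((m + 1) * k) + 1) (by rw [← pow_mul]; exact Nat.lt_succ_self _)
    rw [← h1]
    symm
    have h2 : Ioc (2 ^ (m * k)) (2 ^ ((m + 1) * k)) ⊆ range (2 ^ ((m + 1) * k) + 1) := by
      intro n hn
      rw [mem_Ioc] at hn
      rw [mem_range]
      omega
    rw [← sum_subset h2 (f := fun n => DP S c k n * g n)]
    · apply sum_congr rfl
      intro n _
      simp only [hg, hD]
      ring
    · intro n _ hn
      by_cases hz : DP S c k n = 0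
      · rw [hz, zero_mul]
      · exact absurd (hsup n hz) hn
  have hfin : l2 (fun j => (∑ p ∈ S, c p * ((((p : ℝ) ^ (-ε j) : ℝ) : ℂ) * (χ j p * ph (t j) p))) ^ k) ≤
      ((k : ℝ) + 1) * (k * Real.sqrt (F * Γ)) := by
    have : (fun j => (∑ p ∈ S, c p * ((((p : ℝ) ^ (-ε j) : ℝ) : ℂ) * (χ j p * ph (t j) p))) ^ k) =
        fun j => ∑ n ∈ Ioc ((2 : ℕ) ^ (m * k)) (2 ^ ((m + 1) * k)),
      (((n : ℝ) ^ (-ε j) : ℝ) : ℂ) * (D n * (χ j n * ph (t j) n)) := funext fun j => (hpw j).symm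
    rw [this]
    exact hkey2
  rw [l2_le_iff _ (by positivity)] at hfin
  have e3 : (((k : ℝ) + 1) * (k * Real.sqrt (F * Γ))) ^ 2 = ((k : ℝ) * (k + 1)) ^ 2 * (F * Γ) := by
    rw [mul_pow, mul_pow, Real.sq_sqrt (mul_nonneg hF0 hΓ0)]
    ring
  rw [e3] at hfin
  refine le_trans (le_of_eq ?_) hfin
  apply sum_congr rfl
  intro j _
  rw [norm_pow, ← pow_mul, mul_comm k 2]

end

end Pool.Agent.H439.SP
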