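import Pool.Agent.H439.SP.MCount

set_option autoImplicit false

namespace Pool.Agent.H439.SP

open Finset Complex ComplexConjugate Filter Topology Pool.Agent.H439.LS

/-- the terms -/
noncomputable def trm {q : ℕ} (a : ℕ → ℂ) (χ : DirichletCharacter ℂ q) (t ε : ℝ) (p : ℕ) : ℂ :=
  (((p : ℝ) ^ (-(1 + ε)) : ℝ) : ℂ) * (a p * (χ p * ph (-t) p))

lemma PS_eq {q : ℕ} (a : ℕ → ℂ) (χ : DirichletCharacter ℂ q) (t ε : ℝ) :
    PS a χ (1 + (ε : ℂ) + (t : ℂ) * I) = ∑' p : Nat.Primes, trm a χ t ε p := by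
  unfold PS trm
  apply tsum_congr
  intro p
  rw [cpow_split p.2.pos]
  ring

lemma norm_trm {q : ℕ} {a : ℕ → ℂ} {M : ℝ} (ha : ∀ p : ℕ, p.Prime → ‖a p‖ ≤ M)
    (χ : DirichletCharacter ℂ q) (t ε : ℝ) {p : ℕ} (hp : p.Prime) :
    ‖trm a χ t ε p‖ ≤ M * (p : ℝ) ^ (-(1 + ε)) := by
  unfold trm
  rw [norm_mul, norm_real, Real.norm_of_nonneg (Real.rpow_nonneg (Nat.cast_nonneg p) _), mul_comm,
    norm_mul (a p), norm_mul (χ (p : ZMod q)), norm_ph _ hp.pos, mul_one]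
  apply mul_le_mul_of_nonneg_right _ (Real.rpow_nonneg (Nat.cast_nonneg p) _)
  have hM : 0 ≤ M := (norm_nonneg _).trans (ha p hp)
  calc ‖a p‖ * ‖χ (p : ZMod q)‖ ≤ M * 1 :=
        mul_le_mul (ha p hp) (χ.norm_le_one _) (norm_nonneg _) hM
    _ = M := mul_one M

lemma summable_trm {q : ℕ} {a : ℕ → ℂ} {M : ℝ} (ha : ∀ p : ℕ, p.Prime → ‖a p‖ ≤ M)
    (χ : DirichletCharacter ℂ q) (t : ℝ) {ε : ℝ} (hε : 0 < ε) :
    Summable fun p : Nat.Primes => trm a χ t ε p := by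
  refine Summable.of_norm_bounded (g := fun p : Nat.Primes => M * ((p : ℕ) : ℝ) ^ (-(1 + ε))) ?_
    fun p => norm_trm ha χ t ε p.2
  exact (Nat.Primes.summable_rpow.2 (by linarith)).mul_left M

/-- the block sums -/
noncomputable def bk {q : ℕ} (a : ℕ → ℂ) (χ : DirichletCharacter ℂ q) (t ε : ℝ) (m : ℕ) : ℂ :=
  ∑ p ∈ (Ioc (2 ^ m) (2 ^ (m + 1))).filter Nat.Prime, trm a χ t ε p

lemma small_eq {q : ℕ} {a : ℕ → ℂ} (χ : DirichletCharacter ℂ q) (t ε : ℝ) {m₀ n : ℕ} (hmn : m₀ ≤ n)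
    (ha : ∀ p : ℕ, p.Prime → p ≤ 2 ^ m₀ → a p = 0) :
    small (trm a χ t ε) (2 ^ n) = ∑ m ∈ Ico m₀ (n + 1), bk a χ t ε m := by
  unfold small bk
  have e1 : 2 * 2 ^ n = 2 ^ (n + 1) := by rw [pow_succ]; ring
  rw [e1]
  simp_rw [sum_filter]
  rw [← sum_dyadic (fun p => if p.Prime then trm a χ t ε p else 0) (by omega : m₀ ≤ n + 1)]
  have h1 : 2 ^ m₀ ≤ 2 ^ (n + 1) := Nat.pow_le_pow_right (by norm_num) (by omega)
  symm
  apply sum_subset
  · intro p hp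
    rw [mem_Ioc] at hp
    rw [mem_range]
    omega
  · intro p hp hp'
    rw [mem_range] at hp
    rw [mem_Ioc, not_and_or, not_lt, not_le] at hp'
    by_cases hpp : p.Prime
    · rw [if_pos hpp]
      have h2 : p ≤ 2 ^ m₀ := by omega
      unfold trm
      rw [ha p hpp h2]
      simp
    · rw [if_neg hpp]

/-- the number of the members of a family in a subset -/
lemma sub_count {J : ℕ} {q : Fin J → ℕ} {χ : ∀ j, DirichletCharacter ℂ (q j)} {t : Fin J → ℝ}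
    (h : Spaced q χ t) {Q : ℝ} (hQ : 0 ≤ Q) (hq : ∀ j, (q j : ℝ) ≤ Q)
    (ht : ∀ j, |t j| ≤ Q) {ε : Fin J → ℝ} (hε0 : ∀ j, 0 ≤ ε j) (hε1 : ∀ j, ε j ≤ 1)
    {m k : ℕ} (hm : 1 ≤ m) (hk : 1 ≤ k) {a : ℕ → ℂ} {M : ℝ} (hM : 0 ≤ M)
    (ha : ∀ p : ℕ, p.Prime → ‖a p‖ ≤ M) {l : ℝ} (hl : 0 < l) (A : Finset (Fin J))
    (hbad : ∀ j ∈ A, l ≤ ‖bk a (χ j) (t j) (ε j) m‖)
    (hstar : ((k : ℝ) * (k + 1)) ^ 2 * (k.factorial * (M ^ 2 / 2 ^ m) ^ k *
      EE Q (2 ^ ((m + 1) * k))) ≤ l ^ (2 * k) / 2) :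
    (A.card : ℝ) ≤
      62 * C0 * (((k : ℝ) * (k + 1)) ^ 2 * (k.factorial * (2 * M ^ 2 / l ^ 2) ^ k)) := by
  set e : Fin A.card → Fin J := fun i => A.orderEmbOfFin rfl i with he
  have hinj : Function.Injective e := (A.orderEmbOfFin rfl).injective
  have hmem : ∀ i, e i ∈ A := fun i => A.orderEmbOfFin_mem rfl i
  exact mcount (h.neg.comp hinj) hQ (fun i => hq _) (fun i => by rw [abs_neg]; exact ht _)
    (ε := fun i => ε (e i)) (fun i => hε0 _) (fun i => hε1 _) hm hk hM ha hl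
    (fun i => hbad (e i) (hmem i)) hstar

/-- **Short Dirichlet polynomials.** -/
theorem short_PS {δ M : ℝ} (hδ : 0 < δ) (hδ1 : δ ≤ 1) (hM : 0 < M) :
    ∀ᶠ ℓ : ℝ in atTop, ∀ (J : ℕ) (q : Fin J → ℕ) (χ : ∀ j, DirichletCharacter ℂ (q j))
      (t : Fin J → ℝ), Spaced q χ t → (∀ j, (q j : ℝ) ≤ Real.exp ℓ) → (∀ j, |t j| ≤ Real.exp ℓ) →
      ∀ ε : Fin J → ℝ, (∀ j, Real.exp (-Real.exp (δ * ℓ / 8)) ≤ ε j) → (∀ j, ε j ≤ 1 / 2) →
      ∀ a : ℕ → ℂ, (∀ p : ℕ, p.Prime → ‖a p‖ ≤ M) →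
      (∀ p : ℕ, p.Prime → (p : ℝ) ≤ ℓ ^ (240 / δ) → a p = 0) →
      (∀ j, 1 / (4 * ℓ) ≤ ‖PS a (χ j) (1 + (ε j : ℂ) + (t j : ℂ) * I)‖) →
      (J : ℝ) ≤ Real.exp (δ * ℓ) := by
  have hCB := CB_pos
  have hC0 := C0_nonneg
  have hrp : ∀ᶠ ℓ : ℝ in atTop, ℓ ^ (240 / δ) ≤ Real.exp ℓ := by
    have h1 := isLittleO_rpow_exp_pos_mul_atTop (240 / δ) one_pos
    have h2 := h1.bound (c := 1) one_pos
    filter_upwards [h2] with x hx
    rw [one_mul, one_mul, Real.norm_of_nonneg (Real.exp_nonneg _)] at hx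
    exact (le_abs_self _).trans hx
  filter_upwards [numbers hδ hδ1 hM.le, eventually_ge_atTop 28, hrp,
    ev_pow (9216 * M ^ 2 * CB + 40 * (502200 * C0)) (b := 3 / 4 * δ) (by positivity) 11] with ℓ hnum hℓ28
      hrp hev
  intro J q χ t hsp hq ht ε hε0 hε1 a ha hay hbad
  have hℓ0 : 0 < ℓ := by linarith
  have hl2 : 0 < Real.log 2 := Real.log_pos (by norm_num)
  have hl2a := Real.log_two_gt_d9
  have hl2b := Real.log_two_lt_d9
  set R : ℝ := Real.exp ℓ with hR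
  have hR16 : 16 ≤ R := by
    have h1 := Real.add_one_le_exp ℓ
    linarith
  have hR0 : 0 < R := by linarith
  have hlogR : Real.log R = ℓ := by rw [hR, Real.log_exp]
  have hJR := card_le hsp hR16 hq ht
  -- the starting point
  set V : ℝ := 2 ^ 96 * 50000 ^ 4 * R ^ 16 with hV
  have hRp : (1 : ℝ) ≤ R ^ 16 := one_le_pow₀ (by linarith)
  obtain ⟨n, hn1, hn2⟩ := exists_pow V (by
    rw [hV]
    have : (1 : ℝ) ≤ 2 ^ 96 * 50000 ^ 4 := by norm_num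
    nlinarith)
  have hnY : y0 J ≤ ((2 ^ n : ℕ) : ℝ) := by
    push_cast
    refine le_trans ?_ hn1
    unfold y0
    apply max_le
    · rw [hV]
      have : (1 : ℝ) ≤ 50000 ^ 4 * R ^ 16 := by nlinarith
      calc (2 : ℝ) ^ 96 = 2 ^ 96 * 1 := by ring
        _ ≤ 2 ^ 96 * (50000 ^ 4 * R ^ 16) := mul_le_mul_of_nonneg_left this (by norm_num)
        _ = _ := by ring
    · rw [hV, mul_pow]
      have h3 : (J : ℝ) ^ 4 ≤ R ^ 16 := by
        calc (J : ℝ) ^ 4 ≤ (R ^ 4) ^ 4 := pow_le_pow_left₀ (Nat.cast_nonneg J) hJR 4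
          _ = R ^ 16 := by ring
      have h4 : (50000 : ℝ) ^ 4 * (J : ℝ) ^ 4 ≤ 50000 ^ 4 * R ^ 16 :=
        mul_le_mul_of_nonneg_left h3 (by norm_num)
      have h5 : (50000 : ℝ) ^ 4 * R ^ 16 ≤ 2 ^ 96 * (50000 ^ 4 * R ^ 16) :=
        le_mul_of_one_le_left (by positivity) (by norm_num)
      linarith
  have hnQ : R ^ 8 ≤ ((2 ^ n : ℕ) : ℝ) := by
    push_cast
    refine le_trans ?_ hn1
    rw [hV]
    have h3 : R ^ 8 ≤ R ^ 16 := pow_le_pow_right₀ (by linarith) (by norm_num)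
    have h5 : R ^ 16 ≤ 2 ^ 96 * 50000 ^ 4 * R ^ 16 :=
      le_mul_of_one_le_left (by positivity) (by norm_num)
    linarith
  have hnR : R ≤ (2 : ℝ) ^ n := by
    refine le_trans ?_ hn1
    have h3 : R ≤ R ^ 16 := by
      have := pow_le_pow_right₀ (by linarith : 1 ≤ R) (by norm_num : 1 ≤ 16)
      rwa [pow_one] at this
    have h5 : R ^ 16 ≤ 2 ^ 96 * 50000 ^ 4 * R ^ 16 :=
      le_mul_of_one_le_left (by positivity) (by norm_num)
    rw [hV]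
    linarith
  have hnpos : 1 ≤ n := by
    by_contra hcon
    have : n = 0 := by omega
    rw [this, pow_zero] at hnR
    linarith
  have hn40 : (n : ℝ) + 1 ≤ 40 * ℓ := by
    have h1 : Real.log V = 96 * Real.log 2 + 4 * Real.log 50000 + 16 * ℓ := by
      rw [hV, Real.log_mul (by positivity) (by positivity), Real.log_mul (by positivity)
        (by positivity), Real.log_pow, Real.log_pow, Real.log_pow, hlogR]
      push_cast
      ring
    have h2 : Real.log 50000 ≤ 16 * Real.log 2 := by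
      have : Real.log 50000 ≤ Real.log (2 ^ 16) := Real.log_le_log (by norm_num) (by norm_num)
      rw [Real.log_pow] at this
      push_cast at this
      exact this
    rw [h1] at hn2
    linarith
  -- the first block
  set F : ℕ := ⌊ℓ ^ (240 / δ)⌋₊ with hF
  have hℓB : 1 ≤ ℓ ^ (240 / δ) := Real.one_le_rpow (by linarith) (by positivity)
  have hF1 : F ≠ 0 := by
    rw [hF]
    exact (Nat.floor_pos.2 hℓB).ne'
  set m₀ : ℕ := Nat.log 2 F with hm₀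
  have hm1 : 2 ^ m₀ ≤ F := Nat.pow_log_le_self 2 hF1
  have hm2 : F < 2 ^ (m₀ + 1) := Nat.lt_pow_succ_log_self (by norm_num) F
  have hFle : (F : ℝ) ≤ ℓ ^ (240 / δ) := Nat.floor_le (by linarith)
  have hFlt : ℓ ^ (240 / δ) < F + 1 := Nat.lt_floor_add_one _
  have hm3 : ℓ ^ (240 / δ) ≤ (2 : ℝ) ^ (m₀ + 1) := by
    have : ((F : ℝ) + 1) ≤ 2 ^ (m₀ + 1) := by exact_mod_cast hm2
    linarith
  have hm4 : 240 / δ * Real.log ℓ ≤ (m₀ + 1) * Real.log 2 := by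
    have h1 := Real.log_le_log (by positivity) hm3
    rw [Real.log_rpow hℓ0, Real.log_pow] at h1
    push_cast at h1
    exact h1
  have hlogℓ : 1 ≤ Real.log ℓ := by
    rw [Real.le_log_iff_exp_le hℓ0]
    have := Real.exp_one_lt_d9
    linarith
  have h120 : 120 ≤ 120 / δ := by
    rw [le_div_iff₀ hδ]; nlinarith
  have hm5 : ∀ m : ℕ, m₀ ≤ m → 120 / δ * Real.log ℓ ≤ m * Real.log 2 := by
    intro m hm
    have h1 : (m₀ : ℝ) ≤ m := by exact_mod_cast hm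
    have h2 : 240 / δ * Real.log ℓ = 120 / δ * Real.log ℓ + 120 / δ * Real.log ℓ := by ring
    have h3 : 120 ≤ 120 / δ * Real.log ℓ := by nlinarith
    nlinarith
  have hm6 : 1 ≤ m₀ := by
    by_contra hcon
    have : m₀ = 0 := by omega
    have h1 := hm5 m₀ le_rfl
    rw [this] at h1
    have h3 : 120 ≤ 120 / δ * Real.log ℓ := by nlinarith
    norm_num at h1
    linarith
  have hm7 : m₀ ≤ n := by
    have h1 : ((2 ^ m₀ : ℕ) : ℝ) ≤ ((2 ^ n : ℕ) : ℝ) := by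
      have h2 : ((2 ^ m₀ : ℕ) : ℝ) ≤ F := by exact_mod_cast hm1
      push_cast at h2 ⊢
      linarith
    have h3 : 2 ^ m₀ ≤ 2 ^ n := by exact_mod_cast h1
    exact (Nat.pow_le_pow_iff_right (by norm_num)).1 h3
  have hay' : ∀ p : ℕ, p.Prime → p ≤ 2 ^ m₀ → a p = 0 := by
    intro p hp hpm
    apply hay p hp
    have h1 : (p : ℝ) ≤ F := by exact_mod_cast hpm.trans hm1
    linarith
  -- the large primes
  set ε₀ : ℝ := Real.exp (-Real.exp (δ * ℓ / 8)) with hε₀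
  have hε₀pos : 0 < ε₀ := Real.exp_pos _
  have hε₀1 : ε₀ ≤ 1 := by
    rw [hε₀, Real.exp_le_one_iff]
    have := Real.exp_pos (δ * ℓ / 8)
    linarith
  set T : Fin J → ℂ := fun j => ∑' p : Nat.Primes, trm a (χ j) (t j) (ε j) p -
    small (trm a (χ j) (t j) (ε j)) (2 ^ n) with hT
  have hT2 : l2 T ≤ 6 * M * Real.sqrt CB * Real.log (2 / ε₀) := by
    apply tail_l2v (fun j => trm a (χ j) (t j) (ε j))
      (fun j => summable_trm ha (χ j) (t j) (lt_of_lt_of_le hε₀pos (hε0 j))) (by positivity)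
    intro K
    exact vdyadic hsp.neg hq (fun j => by rw [abs_neg]; exact ht j) hnpos hnY hnQ hM ha hε₀pos hε₀1
      hε0 (fun j => by linarith [hε1 j]) K
  set E8 : ℝ := Real.exp (δ * ℓ / 8) with hE8
  have hE81 : 1 ≤ E8 := Real.one_le_exp (by positivity)
  have hlogε : Real.log (2 / ε₀) ≤ 2 * E8 := by
    rw [Real.log_div (by norm_num) hε₀pos.ne', hε₀, Real.log_exp]
    linarith
  have hlogε0 : 0 ≤ Real.log (2 / ε₀) := by
    apply Real.log_nonneg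
    rw [le_div_iff₀ hε₀pos]; linarith
  have hT3 : ∑ j, ‖T j‖ ^ 2 ≤ 144 * M ^ 2 * CB * Real.exp (δ * ℓ / 4) := by
    rw [← l2_sq]
    calc l2 T ^ 2 ≤ (6 * M * Real.sqrt CB * (2 * E8)) ^ 2 := by
          apply pow_le_pow_left₀ (l2_nonneg _)
          refine hT2.trans ?_
          gcongr
      _ = 144 * M ^ 2 * (Real.sqrt CB) ^ 2 * (E8 * E8) := by ring
      _ = 144 * M ^ 2 * CB * Real.exp (δ * ℓ / 4) := by
          rw [Real.sq_sqrt hCB.le, hE8, ← Real.exp_add]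
          congr 2
          ring
  -- the classes
  classical
  set A : Finset (Fin J) := univ.filter (fun j => 1 / (8 * ℓ) ≤ ‖T j‖) with hA
  set l : ℝ := 1 / (8 * ℓ * (n + 1)) with hl
  have hl0 : 0 < l := by positivity
  set A' : ℕ → Finset (Fin J) := fun m => univ.filter (fun j => l ≤ ‖bk a (χ j) (t j) (ε j) m‖) with hA'
  have hcover : (univ : Finset (Fin J)) ⊆ A ∪ (Ico m₀ (n + 1)).biUnion A' := by
    intro j _
    by_contra hcon
    rw [mem_union, not_or, mem_biUnion] at hcon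
    obtain ⟨h1, h2⟩ := hcon
    have h3 : ‖T j‖ < 1 / (8 * ℓ) := by
      by_contra hc
      rw [not_lt] at hc
      exact h1 (mem_filter.2 ⟨mem_univ _, hc⟩)
    have h4 : ∀ m ∈ Ico m₀ (n + 1), ‖bk a (χ j) (t j) (ε j) m‖ ≤ l := by
      intro m hm
      by_contra hc
      rw [not_le] at hc
      exact h2 ⟨m, hm, mem_filter.2 ⟨mem_univ _, hc.le⟩⟩
    have h5 := hbad j
    rw [PS_eq] at h5
    have h6 : ∑' p : Nat.Primes, trm a (χ j) (t j) (ε j) p = T j +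
        ∑ m ∈ Ico m₀ (n + 1), bk a (χ j) (t j) (ε j) m := by
      rw [← small_eq (χ j) (t j) (ε j) hm7 hay']
      simp only [hT]
      ring
    rw [h6] at h5
    have h7 : ‖∑ m ∈ Ico m₀ (n + 1), bk a (χ j) (t j) (ε j) m‖ ≤ 1 / (8 * ℓ) := by
      refine (norm_sum_le_of_le _ h4).trans ?_
      rw [sum_const, Nat.card_Ico, nsmul_eq_mul]
      have h8 : ((n + 1 - m₀ : ℕ) : ℝ) ≤ n + 1 := by
        have : n + 1 - m₀ ≤ n + 1 := Nat.sub_le _ _
        exact_mod_cast this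
      calc ((n + 1 - m₀ : ℕ) : ℝ) * l ≤ ((n : ℝ) + 1) * l := mul_le_mul_of_nonneg_right h8 hl0.le
        _ = 1 / (8 * ℓ) := by rw [hl]; field_simp
    have h9 := norm_add_le (T j) (∑ m ∈ Ico m₀ (n + 1), bk a (χ j) (t j) (ε j) m)
    have h10 : 1 / (4 * ℓ) = 1 / (8 * ℓ) + 1 / (8 * ℓ) := by field_simp; norm_num
    linarith
  have hcard1 : (A.card : ℝ) ≤ 9216 * M ^ 2 * CB * ℓ ^ 2 * Real.exp (δ * ℓ / 4) := by
    have h1 : (A.card : ℝ) * (1 / (8 * ℓ)) ^ 2 ≤ ∑ j, ‖T j‖ ^ 2 := by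
      have h2 : ∑ j ∈ A, (1 / (8 * ℓ)) ^ 2 ≤ ∑ j ∈ A, ‖T j‖ ^ 2 := by
        apply sum_le_sum
        intro j hj
        exact pow_le_pow_left₀ (by positivity) (mem_filter.1 hj).2 2
      rw [sum_const, nsmul_eq_mul] at h2
      refine h2.trans ?_
      exact sum_le_sum_of_subset_of_nonneg (subset_univ _) fun _ _ _ => sq_nonneg _
    have h3 := h1.trans hT3
    have h4 : (A.card : ℝ) = (A.card : ℝ) * (1 / (8 * ℓ)) ^ 2 * (64 * ℓ ^ 2) := by
      field_simp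
      norm_num
    rw [h4]
    calc (A.card : ℝ) * (1 / (8 * ℓ)) ^ 2 * (64 * ℓ ^ 2) ≤
          144 * M ^ 2 * CB * Real.exp (δ * ℓ / 4) * (64 * ℓ ^ 2) :=
            mul_le_mul_of_nonneg_right h3 (by positivity)
      _ = _ := by ring
  have hcard2 : ∀ m ∈ Ico m₀ (n + 1), ((A' m).card : ℝ) ≤
      502200 * C0 * ℓ ^ 10 * Real.exp (δ * ℓ / 4) := by
    intro m hm
    rw [mem_Ico] at hm
    obtain ⟨k, hk1, hk2, hk3⟩ := hnum n m (by omega) (by omega) hn40 (hm5 m hm.1)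
    refine le_trans ?_ hk3
    exact sub_count hsp hR0.le hq ht (fun j => hε₀pos.le.trans (hε0 j))
      (fun j => by linarith [hε1 j]) (by omega) hk1 hM.le ha hl0 (A' m)
      (fun j hj => (mem_filter.1 hj).2) hk2
  have hJ : (J : ℝ) ≤ (A.card : ℝ) + ∑ m ∈ Ico m₀ (n + 1), ((A' m).card : ℝ) := by
    have h1 := card_le_card hcover
    rw [card_univ, Fintype.card_fin] at h1
    have h2 := h1.trans (card_union_le _ _)
    have h3 : ((Ico m₀ (n + 1)).biUnion A').card ≤ ∑ m ∈ Ico m₀ (n + 1), (A' m).card := card_biUnion_le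
    have h4 : J ≤ A.card + ∑ m ∈ Ico m₀ (n + 1), (A' m).card := by omega
    exact_mod_cast h4
  have hsum2 : ∑ m ∈ Ico m₀ (n + 1), ((A' m).card : ℝ) ≤
      40 * ℓ * (502200 * C0 * ℓ ^ 10 * Real.exp (δ * ℓ / 4)) := by
    refine (sum_le_sum hcard2).trans ?_
    rw [sum_const, Nat.card_Ico, nsmul_eq_mul]
    have h8 : ((n + 1 - m₀ : ℕ) : ℝ) ≤ 40 * ℓ := by
      have : ((n + 1 - m₀ : ℕ) : ℝ) ≤ ((n + 1 : ℕ) : ℝ) := by exact_mod_cast Nat.sub_le _ _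
      push_cast at this
      linarith
    exact mul_le_mul_of_nonneg_right h8 (by positivity)
  have hE4 : 0 < Real.exp (δ * ℓ / 4) := Real.exp_pos _
  calc (J : ℝ) ≤ 9216 * M ^ 2 * CB * ℓ ^ 2 * Real.exp (δ * ℓ / 4) +
        40 * ℓ * (502200 * C0 * ℓ ^ 10 * Real.exp (δ * ℓ / 4)) := by linarith
    _ ≤ 9216 * M ^ 2 * CB * ℓ ^ 11 * Real.exp (δ * ℓ / 4) +
        40 * (502200 * C0) * ℓ ^ 11 * Real.exp (δ * ℓ / 4) := by
        have h1 : ℓ ^ 2 ≤ ℓ ^ 11 := pow_le_pow_right₀ (by linarith) (by norm_num)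
        have h2 : 9216 * M ^ 2 * CB * ℓ ^ 2 * Real.exp (δ * ℓ / 4) ≤
            9216 * M ^ 2 * CB * ℓ ^ 11 * Real.exp (δ * ℓ / 4) := by gcongr
        have h3 : 40 * ℓ * (502200 * C0 * ℓ ^ 10 * Real.exp (δ * ℓ / 4)) =
            40 * (502200 * C0) * ℓ ^ 11 * Real.exp (δ * ℓ / 4) := by ring
        linarith
    _ = ((9216 * M ^ 2 * CB + 40 * (502200 * C0)) * ℓ ^ 11) * Real.exp (δ * ℓ / 4) := by ring
    _ ≤ Real.exp (3 / 4 * δ * ℓ) * Real.exp (δ * ℓ / 4) := mul_le_mul_of_nonneg_right hev hE4.le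
    _ = Real.exp (δ * ℓ) := by rw [← Real.exp_add]; congr 1; ring

end Pool.Agent.H439.SP
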