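import Pool.Agent.H439.SP.MomentBlock

set_option autoImplicit false

namespace Pool.Agent.H439.SP

open Finset Complex ComplexConjugate Filter Topology Pool.Agent.H439.LS

section
variable {J : ℕ} {q : Fin J → ℕ} {χ : ∀ j, DirichletCharacter ℂ (q j)} {t : Fin J → ℝ}

/-- **One dyadic block with variable exponents.** -/
lemma vblock (h : Spaced q χ t) {Q : ℝ} (hq : ∀ j, (q j : ℝ) ≤ Q) (ht : ∀ j, |t j| ≤ Q)
    {y : ℕ} (hy : y0 J ≤ y) (hQy : Q ^ 8 ≤ y) {a : ℕ → ℂ} {M : ℝ} (hM : 0 < M)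
    (ha : ∀ p : ℕ, p.Prime → ‖a p‖ ≤ M) {ε₀ : ℝ} (h0 : 0 < ε₀) {ε : Fin J → ℝ}
    (hε0 : ∀ j, ε₀ ≤ ε j) (hε1 : ∀ j, ε j ≤ 1) :
    l2 (fun j => ∑ p ∈ (Ioc (2 * y) (4 * y)).filter Nat.Prime,
        (((p : ℝ) ^ (-(1 + ε j)) : ℝ) : ℂ) * (a p * (χ j p * ph (t j) p))) ≤
      3 * ((2 * y : ℕ) : ℝ) ^ (-(1 + ε₀)) * (M * (Real.sqrt CB * ((y : ℝ) / Real.log y))) := by
  classical
  have hy1 : (2 : ℝ) ^ 96 ≤ y := y0_le hy
  have hy0 : 0 < y := by
    have : (0 : ℝ) < y := lt_of_lt_of_le (by norm_num) hy1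
    exact_mod_cast this
  have hlogpos : 0 < Real.log y := by
    apply Real.log_pos
    exact lt_of_lt_of_le (by norm_num) hy1
  have hCB := CB_pos
  set f : Fin J → ℕ → ℂ := fun j n => if n.Prime then a n * (χ j n * ph (t j) n) else 0 with hf
  have hpart : ∀ u, 2 * y ≤ u → u ≤ 4 * y →
      l2 (fun j => ∑ n ∈ Ioc (2 * y) u, f j n) ≤ M * (Real.sqrt CB * ((y : ℝ) / Real.log y)) := by
    intro u hu1 hu2
    set c : ℕ → ℂ := fun p => if p ≤ u then a p else 0 with hc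
    have h1 := norm_vec_block h hq ht hy hQy c hM (by
      intro p _ hp
      simp only [hc]
      split_ifs
      · exact ha p hp
      · rw [norm_zero]; exact hM.le)
    refine le_trans (le_of_eq ?_) h1
    unfold l2 vec
    congr 2
    funext j
    have e2 : Ioc (2 * y) u = (Ioc (2 * y) (4 * y)).filter (fun n => n ≤ u) := by
      ext n
      rw [mem_filter, mem_Ioc, mem_Ioc]
      omega
    rw [e2, sum_filter, sum_filter]
    apply sum_congr rfl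
    intro n _
    simp only [hf, hc]
    split_ifs <;> simp
  have h2y : (0 : ℝ) < ((2 * y : ℕ) : ℝ) := by exact_mod_cast (by omega : 0 < 2 * y)
  set w0 : ℝ := ((2 * y : ℕ) : ℝ) ^ (-(1 + ε₀)) with hw0
  have hw0n : 0 ≤ w0 := Real.rpow_nonneg h2y.le _
  have hg : ∀ j, ∀ u : ℕ, 2 * y ≤ u → (u : ℝ) ^ (-(1 + ε j)) ≤ w0 := by
    intro j u hu
    have h1 : ((2 * y : ℕ) : ℝ) ≤ u := by exact_mod_cast hu
    calc (u : ℝ) ^ (-(1 + ε j)) ≤ ((2 * y : ℕ) : ℝ) ^ (-(1 + ε j)) :=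
          Real.rpow_le_rpow_of_nonpos h2y h1 (by linarith [hε0 j])
      _ ≤ w0 := by
          apply Real.rpow_le_rpow_of_exponent_le
          · exact_mod_cast (by omega : 1 ≤ 2 * y)
          · linarith [hε0 j]
  have hkey := l2_abel f (fun j n => (n : ℝ) ^ (-(1 + ε j))) (a := 2 * y) (b := 4 * y) (by omega)
    hpart (fun _ => 2 * w0 / ((2 * y : ℕ) : ℝ)) (W := w0) (by
      intro j
      rw [abs_of_nonneg (Real.rpow_nonneg (Nat.cast_nonneg _) _)]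
      exact hg j _ (by omega)) hw0n (by
      intro j u hu
      rw [mem_Ico] at hu
      have hu0 : 0 < u := by omega
      obtain ⟨h1, h2⟩ := rpow_diff (s := 1 + ε j) (by linarith [hε0 j]) hu0
      rw [abs_of_nonneg h1]
      refine h2.trans ?_
      have h3 := hg j u hu.1
      have h4 : 0 ≤ (u : ℝ) ^ (-(1 + ε j)) := Real.rpow_nonneg (Nat.cast_nonneg _) _
      have h5 : (1 + ε j) * (u : ℝ) ^ (-(1 + ε j)) ≤ 2 * w0 := by
        have := hε0 j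
        have := hε1 j
        apply mul_le_mul (by linarith) h3 h4 (by norm_num)
      apply div_le_div₀ (by positivity) h5 h2y
      exact_mod_cast hu.1) (fun u _ => by positivity)
  have hsumw : ∑ _u ∈ Ico (2 * y) (4 * y), 2 * w0 / ((2 * y : ℕ) : ℝ) = 2 * w0 := by
    rw [sum_const, Nat.card_Ico, nsmul_eq_mul, show 4 * y - 2 * y = 2 * y by omega]
    field_simp
  rw [hsumw] at hkey
  have e : (fun j => ∑ p ∈ (Ioc (2 * y) (4 * y)).filter Nat.Prime,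
        (((p : ℝ) ^ (-(1 + ε j)) : ℝ) : ℂ) * (a p * (χ j p * ph (t j) p))) =
      fun j => ∑ n ∈ Ioc (2 * y) (4 * y), (((n : ℝ) ^ (-(1 + ε j)) : ℝ) : ℂ) * f j n := by
    funext j
    rw [sum_filter]
    apply sum_congr rfl
    intro n _
    simp only [hf]
    split_ifs <;> simp
  rw [e]
  refine hkey.trans (le_of_eq ?_)
  ring

lemma sum_dyadic_prime {E : Type*} [AddCommMonoid E] (F : ℕ → E) {n : ℕ} (K : ℕ) :
    ∑ p ∈ (Ioc (2 * 2 ^ n) (2 ^ (K + 1) * 2 ^ n)).filter Nat.Prime, F p =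
      ∑ k ∈ range K, ∑ p ∈ (Ioc (2 * (2 ^ k * 2 ^ n)) (4 * (2 ^ k * 2 ^ n))).filter Nat.Prime, F p := by
  simp_rw [sum_filter]
  have e1 : 2 * 2 ^ n = 2 ^ (n + 1) := by rw [pow_succ]; ring
  have e2 : 2 ^ (K + 1) * 2 ^ n = 2 ^ (n + 1 + K) := by rw [← pow_add]; congr 1; ring
  rw [e1, e2, sum_dyadic _ (by omega), sum_Ico_eq_sum_range]
  rw [show n + 1 + K - (n + 1) = K by omega]
  apply sum_congr rfl
  intro k _
  have e3 : 2 * (2 ^ k * 2 ^ n) = 2 ^ (n + 1 + k) := by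
    rw [← pow_add, show n + 1 + k = (k + n) + 1 by ring, pow_succ (2 : ℕ) (k + n)]; ring
  have e4 : 4 * (2 ^ k * 2 ^ n) = 2 ^ (n + 1 + k + 1) := by
    rw [pow_succ, ← e3]; ring
  rw [e3, e4]

/-- **All large primes, finite sums.** -/
lemma vdyadic (h : Spaced q χ t) {Q : ℝ} (hq : ∀ j, (q j : ℝ) ≤ Q) (ht : ∀ j, |t j| ≤ Q)
    {n : ℕ} (hn : 1 ≤ n) (hY : y0 J ≤ ((2 ^ n : ℕ) : ℝ)) (hQY : Q ^ 8 ≤ ((2 ^ n : ℕ) : ℝ))
    {a : ℕ → ℂ} {M : ℝ} (hM : 0 < M)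
    (ha : ∀ p : ℕ, p.Prime → ‖a p‖ ≤ M) {ε₀ : ℝ} (h0 : 0 < ε₀) (h1 : ε₀ ≤ 1) {ε : Fin J → ℝ}
    (hε0 : ∀ j, ε₀ ≤ ε j) (hε1 : ∀ j, ε j ≤ 1) (K : ℕ) :
    l2 (fun j => ∑ p ∈ (Ioc (2 * 2 ^ n) (2 ^ (K + 1) * 2 ^ n)).filter Nat.Prime,
        (((p : ℝ) ^ (-(1 + ε j)) : ℝ) : ℂ) * (a p * (χ j p * ph (t j) p))) ≤
      6 * M * Real.sqrt CB * Real.log (2 / ε₀) := by
  have hl2 : 0 < Real.log 2 := Real.log_pos (by norm_num)
  have hl2' := Real.log_two_gt_d9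
  have e : (fun j => ∑ p ∈ (Ioc (2 * 2 ^ n) (2 ^ (K + 1) * 2 ^ n)).filter Nat.Prime,
        (((p : ℝ) ^ (-(1 + ε j)) : ℝ) : ℂ) * (a p * (χ j p * ph (t j) p))) =
      fun j => ∑ k ∈ range K, (fun k j =>
        ∑ p ∈ (Ioc (2 * (2 ^ k * 2 ^ n)) (4 * (2 ^ k * 2 ^ n))).filter Nat.Prime,
        (((p : ℝ) ^ (-(1 + ε j)) : ℝ) : ℂ) * (a p * (χ j p * ph (t j) p))) k j := by
    funext j
    exact sum_dyadic_prime (fun p => (((p : ℝ) ^ (-(1 + ε j)) : ℝ) : ℂ) *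
      (a p * (χ j p * ph (t j) p))) K
  rw [e]
  refine (l2_sum_le (range K) _).trans ?_
  have hterm : ∀ k ∈ range K, l2 (fun j =>
        ∑ p ∈ (Ioc (2 * (2 ^ k * 2 ^ n)) (4 * (2 ^ k * 2 ^ n))).filter Nat.Prime,
        (((p : ℝ) ^ (-(1 + ε j)) : ℝ) : ℂ) * (a p * (χ j p * ph (t j) p))) ≤
      3 * M * Real.sqrt CB * (((2 : ℝ) ^ (-ε₀)) ^ k / (k + 1)) := by
    intro k _
    have a3 : ((2 ^ n : ℕ) : ℝ) ≤ ((2 ^ k * 2 ^ n : ℕ) : ℝ) := by
      exact_mod_cast Nat.le_mul_of_pos_left _ (by positivity)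
    have h2 := vblock h hq ht (y := 2 ^ k * 2 ^ n) (hY.trans a3) (hQY.trans a3) hM ha h0 hε0 hε1
    refine h2.trans ?_
    have hn0 : (1 : ℝ) ≤ n := by exact_mod_cast hn
    have e1 : ((2 ^ k * 2 ^ n : ℕ) : ℝ) = 2 ^ (k + n) := by push_cast; rw [pow_add]
    have e2 : Real.log ((2 : ℝ) ^ (k + n)) = (k + n) * Real.log 2 := by
      rw [Real.log_pow]; push_cast; ring
    have e3 : ((2 * (2 ^ k * 2 ^ n) : ℕ) : ℝ) = 2 * 2 ^ (k + n) := by push_cast; rw [pow_add]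
    have e4 : (2 * (2 : ℝ) ^ (k + n)) ^ (-(1 + ε₀)) ≤
        (2 * 2 ^ (k + n))⁻¹ * ((2 : ℝ) ^ (-ε₀)) ^ k := by
      rw [show -(1 + ε₀) = -1 + -ε₀ by ring, Real.rpow_add (by positivity), Real.rpow_neg_one]
      apply mul_le_mul_of_nonneg_left _ (by positivity)
      have e6 : ((2 : ℝ) ^ (-ε₀)) ^ k = ((2 : ℝ) ^ k) ^ (-ε₀) := by
        rw [← Real.rpow_natCast ((2 : ℝ) ^ (-ε₀)) k, ← Real.rpow_mul (by norm_num),
          mul_comm (-ε₀) (k : ℝ), Real.rpow_mul (by norm_num), Real.rpow_natCast]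
      rw [e6]
      apply Real.rpow_le_rpow_of_nonpos (by positivity) _ (by linarith)
      have : (2 : ℝ) ^ k ≤ 2 ^ (k + n) := pow_le_pow_right₀ (by norm_num) (by omega)
      have h3 : (0 : ℝ) < 2 ^ k := by positivity
      linarith
    rw [e3, e1, e2]
    have hx : (0 : ℝ) ≤ ((2 : ℝ) ^ (-ε₀)) ^ k := by positivity
    have hk : (0 : ℝ) < (k : ℝ) + n := by positivity
    have hfin : (2 * (2 : ℝ) ^ (k + n))⁻¹ * ((2 : ℝ) ^ (-ε₀)) ^ k *
        (2 ^ (k + n) / ((k + n) * Real.log 2)) ≤ ((2 : ℝ) ^ (-ε₀)) ^ k / (k + 1) := by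
      have e5 : (2 * (2 : ℝ) ^ (k + n))⁻¹ * ((2 : ℝ) ^ (-ε₀)) ^ k *
        (2 ^ (k + n) / ((k + n) * Real.log 2)) =
        ((2 : ℝ) ^ (-ε₀)) ^ k / ((k + n) * (2 * Real.log 2)) := by
        field_simp
      rw [e5]
      apply div_le_div_of_nonneg_left hx (by positivity)
      nlinarith
    calc 3 * (2 * (2 : ℝ) ^ (k + n)) ^ (-(1 + ε₀)) *
          (M * (Real.sqrt CB * (2 ^ (k + n) / ((k + n) * Real.log 2)))) ≤
          3 * ((2 * (2 : ℝ) ^ (k + n))⁻¹ * ((2 : ℝ) ^ (-ε₀)) ^ k) *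
          (M * (Real.sqrt CB * (2 ^ (k + n) / ((k + n) * Real.log 2)))) := by
            gcongr
      _ = 3 * M * Real.sqrt CB * ((2 * (2 : ℝ) ^ (k + n))⁻¹ * ((2 : ℝ) ^ (-ε₀)) ^ k *
        (2 ^ (k + n) / ((k + n) * Real.log 2))) := by ring
      _ ≤ _ := mul_le_mul_of_nonneg_left hfin (by positivity)
  refine (sum_le_sum hterm).trans ?_
  rw [← mul_sum]
  have hsum := sum_pow_div h0 h1 K
  have := mul_le_mul_of_nonneg_left hsum (by positivity : 0 ≤ 3 * M * Real.sqrt CB)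
  linarith

end

/-- **The tail as a limit.** -/
lemma tail_l2v {J : ℕ} (f : Fin J → ℕ → ℂ) (hf : ∀ j, Summable fun p : Nat.Primes => f j p) {Y : ℕ}
    (hY : 0 < Y) {B : ℝ}
    (hB : ∀ K, l2 (fun j => ∑ p ∈ (Ioc (2 * Y) (2 ^ (K + 1) * Y)).filter Nat.Prime, f j p) ≤ B) :
    l2 (fun j => ∑' p : Nat.Primes, f j p - small (f j) Y) ≤ B := by
  have hlim : ∀ j, Tendsto (fun K : ℕ => ∑ p ∈ (Ioc (2 * Y) (2 ^ (K + 1) * Y)).filter Nat.Prime,
      f j p) atTop (𝓝 (∑' p : Nat.Primes, f j p - small (f j) Y)) := by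
    intro j
    have h1 := tendsto_primes (f j) (hf j)
    have h2 : Tendsto (fun K : ℕ => 2 ^ (K + 1) * Y + 1) atTop atTop := by
      apply tendsto_atTop_mono (f := fun K => K) _ tendsto_id
      intro K
      have a1 : K < 2 ^ (K + 1) := (Nat.lt_succ_self K).trans Nat.lt_two_pow_self
      have a2 : 2 ^ (K + 1) ≤ 2 ^ (K + 1) * Y := Nat.le_mul_of_pos_right _ hY
      omega
    have h3 := (h1.comp h2).sub_const (small (f j) Y)
    refine h3.congr fun K => ?_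
    simp only [Function.comp_apply]
    unfold small
    have a1 : 2 * Y ≤ 2 ^ (K + 1) * Y := by
      apply Nat.mul_le_mul_right
      calc 2 = 2 ^ 1 := by norm_num
        _ ≤ 2 ^ (K + 1) := Nat.pow_le_pow_right (by norm_num) (by omega)
    have e : (range (2 ^ (K + 1) * Y + 1)).filter Nat.Prime =
        (range (2 * Y + 1)).filter Nat.Prime ∪ (Ioc (2 * Y) (2 ^ (K + 1) * Y)).filter Nat.Prime := by
      rw [← filter_union]
      congr 1
      ext p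
      simp only [mem_range, mem_union, mem_Ioc]
      omega
    rw [e, sum_union]
    · ring
    · apply disjoint_filter_filter
      rw [disjoint_left]
      intro p hp hp'
      rw [mem_range] at hp
      rw [mem_Ioc] at hp'
      omega
  have h4 : Tendsto (fun K : ℕ => l2 (fun j => ∑ p ∈ (Ioc (2 * Y) (2 ^ (K + 1) * Y)).filter Nat.Prime,
      f j p)) atTop (𝓝 (l2 (fun j => ∑' p : Nat.Primes, f j p - small (f j) Y))) := by
    simp only [l2_eq]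
    exact (tendsto_finsetSum _ fun j _ => ((hlim j).norm).pow 2).sqrt
  exact le_of_tendsto' h4 hB

end Pool.Agent.H439.SP
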